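import Pool.Agent.R254.UA.Stm

/-!
# UA-1: centrality of a vertex with at most half of the tree below it
-/

open Finset Filter
open scoped Topology

namespace Pool.Agent.R254.UA

theorem ext_le {n : ℕ} (ω : Par n) (k : ℕ) : ext ω k ≤ k := by
  unfold ext
  split_ifs with h
  · have := (ω ⟨k, h⟩).2
    simp only at this
    omega
  · exact Nat.zero_le _

theorem ext_fin {n : ℕ} (ω : Par n) (k : Fin n) : ext ω k = (ω k : ℕ) := by
  unfold ext
  rw [dif_pos k.2]

theorem D_lt (f : ℕ → ℕ) (i : ℕ) : ∀ n j : ℕ, j ∈ D f i n → j < n + 1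
  | 0, j, h => by
    unfold D at h
    split_ifs at h with h0
    · simp at h; omega
    · simp at h
  | n + 1, j, h => by
    unfold D at h
    split_ifs at h with h0
    · rw [mem_insert] at h
      rcases h with h | h
      · omega
      · have := D_lt f i n j h
        omega
    · have := D_lt f i n j h
      omega

theorem mem_D_succ (f : ℕ → ℕ) (i n j : ℕ) :
    j ∈ D f i (n + 1) ↔ (j = n + 1 ∧ (i = n + 1 ∨ f n ∈ D f i n)) ∨ j ∈ D f i n := by
  conv_lhs => unfold D
  split_ifs with h0
  · rw [mem_insert]
    tauto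
  · tauto

theorem mem_D_of_le (f : ℕ → ℕ) (i j k : ℕ) (hjk : j ≤ k) :
    ∀ n, k ≤ n → (j ∈ D f i n ↔ j ∈ D f i k) := by
  intro n hn
  induction n, hn using Nat.le_induction with
  | base => exact Iff.rfl
  | succ n hn ih =>
    rw [mem_D_succ, ← ih]
    constructor
    · rintro (⟨h, _⟩ | h)
      · omega
      · exact h
    · intro h
      exact Or.inr h

theorem mem_D_zero (f : ℕ → ℕ) (i n : ℕ) : 0 ∈ D f i n ↔ i = 0 := by
  rw [mem_D_of_le f i 0 0 le_rfl n (Nat.zero_le n)]
  unfold D
  split_ifs with h
  · simp [h]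
  · simp [h]

theorem mem_D_child (f : ℕ → ℕ) (hf : ∀ k, f k ≤ k) (i n k : ℕ) (hk : k < n) :
    k + 1 ∈ D f i n ↔ (k + 1 = i ∨ f k ∈ D f i n) := by
  rw [mem_D_of_le f i (k + 1) (k + 1) le_rfl n hk, mem_D_of_le f i (f k) k (hf k) n hk.le,
    mem_D_succ]
  constructor
  · rintro (⟨_, h | h⟩ | h)
    · exact Or.inl h.symm
    · exact Or.inr h
    · have := D_lt f i k (k + 1) h
      omega
  · rintro (h | h)
    · exact Or.inl ⟨rfl, Or.inl h.symm⟩
    · exact Or.inl ⟨rfl, Or.inr h⟩

theorem mem_D_self (f : ℕ → ℕ) (i n : ℕ) (hi : i ≤ n) : i ∈ D f i n := by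
  rw [mem_D_of_le f i i i le_rfl n hi]
  rcases i with _ | i
  · unfold D
    simp
  · rw [mem_D_succ]
    exact Or.inl ⟨rfl, Or.inl rfl⟩

theorem D_zero_eq (f : ℕ → ℕ) (hf : ∀ k, f k ≤ k) (n : ℕ) : D f 0 n = range (n + 1) := by
  have key : ∀ j, j ≤ n → j ∈ D f 0 n := by
    intro j
    induction j using Nat.strong_induction_on with
    | _ j ih =>
      intro hj
      rcases j with _ | k
      · exact mem_D_self f 0 n (Nat.zero_le n)
      · rw [mem_D_child f hf 0 n k (by omega)]
        exact Or.inr (ih (f k) (by have := hf k; omega) (by have := hf k; omega))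
  ext j
  rw [mem_range]
  constructor
  · exact D_lt f 0 n j
  · intro h
    exact key j (by omega)

/-- The status `in D` is constant along edges avoiding `v`. -/
theorem adj_status {n : ℕ} (ω : Par n) (v a b : Fin (n + 1)) (ha : a ≠ v) (hb : b ≠ v)
    (h : (tree ω).Adj a b) : ((a : ℕ) ∈ D (ext ω) v n ↔ (b : ℕ) ∈ D (ext ω) v n) := by
  have key : ∀ a b : Fin (n + 1), a ≠ v →
      (∃ k : Fin n, (a : ℕ) = k + 1 ∧ (b : ℕ) = (ω k : ℕ)) →
      ((a : ℕ) ∈ D (ext ω) v n ↔ (b : ℕ) ∈ D (ext ω) v n) := by
    rintro a b ha ⟨k, hk1, hk2⟩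
    have h1 := mem_D_child (ext ω) (ext_le ω) v n k k.2
    rw [ext_fin] at h1
    rw [hk1, hk2, h1]
    constructor
    · rintro (h | h)
      · exact absurd (Fin.ext (by omega)) ha
      · exact h
    · intro h
      exact Or.inr h
  unfold tree at h
  rw [SimpleGraph.fromRel_adj] at h
  rcases h.2 with h | h
  · exact key a b ha h
  · exact (key b a hb h).symm

theorem cenStmt : CenStmt := by
  intro n ω v hS
  classical
  have hfle := ext_le ω
  set f := ext ω with hf
  have hv0 : v ≠ 0 := by
    rintro rfl
    unfold S at hS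
    rw [← hf] at hS
    simp only [Fin.val_zero] at hS
    rw [D_zero_eq f hfle n, card_range] at hS
    omega
  have hvD : (v : ℕ) ∈ D f v n := mem_D_self f v n (by have := v.2; omega)
  have h0D : (0 : ℕ) ∉ D f v n := by
    rw [mem_D_zero]
    intro h
    exact hv0 (Fin.ext (by simpa using h))
  have hSc : (D f v n).card = S ω v := rfl
  have hSpos : 1 ≤ S ω v := by
    rw [← hSc]
    exact Finset.card_pos.mpr ⟨_, hvD⟩
  have hDsub : D f v n ⊆ range (n + 1) := by
    intro j hj
    rw [mem_range]
    exact D_lt f v n j hj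
  set G := (tree ω).induce {w | w ≠ v} with hG
  let z : {w : Fin (n + 1) | w ≠ v} := ⟨0, hv0.symm⟩
  -- everything outside `D` is reachable from `0`
  have hreach : ∀ m : ℕ, ∀ w : {w : Fin (n + 1) | w ≠ v}, ((w : Fin (n + 1)) : ℕ) = m →
      ((w : Fin (n + 1)) : ℕ) ∉ D f v n → G.Reachable w z := by
    intro m
    induction m using Nat.strong_induction_on with
    | _ m ih =>
      rintro ⟨w, hw⟩ hwm hwD
      simp only at hwm hwD
      rcases m with _ | k
      · have : w = 0 := Fin.ext (by simpa using hwm)
        subst this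
        exact SimpleGraph.Reachable.refl _
      · have hkn : k < n := by have := w.2; omega
        have hpar : f k ∉ D f v n := by
          intro h
          apply hwD
          rw [hwm, mem_D_child f hfle v n k hkn]
          exact Or.inr h
        have hfk : f k ≤ k := hfle k
        let p : Fin (n + 1) := ⟨f k, by omega⟩
        have hpv : p ≠ v := by
          intro h
          apply hpar
          have : f k = (v : ℕ) := by rw [← h]
          rw [this]
          exact hvD
        have h1 : G.Reachable ⟨p, hpv⟩ z := ih (f k) (by omega) ⟨p, hpv⟩ rfl hpar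
        have h2 : G.Adj ⟨w, hw⟩ ⟨p, hpv⟩ := by
          rw [hG, SimpleGraph.comap_adj]
          show (tree ω).Adj w p
          unfold tree
          rw [SimpleGraph.fromRel_adj]
          refine ⟨?_, Or.inl ⟨⟨k, hkn⟩, by simpa using hwm, ?_⟩⟩
          · intro h
            have : (w : ℕ) = f k := by rw [h]
            omega
          · show f k = _
            rw [hf]
            exact ext_fin ω ⟨k, hkn⟩
        exact h2.reachable.trans h1
  -- the status is constant on components
  have hstat : ∀ a b : {w : Fin (n + 1) | w ≠ v}, G.Reachable a b →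
      (((a : Fin (n + 1)) : ℕ) ∈ D f v n ↔ ((b : Fin (n + 1)) : ℕ) ∈ D f v n) := by
    rintro a b ⟨p⟩
    induction p with
    | nil => exact Iff.rfl
    | @cons a b c h _ ih =>
      refine Iff.trans ?_ ih
      rw [hG, SimpleGraph.comap_adj] at h
      exact adj_status ω v a b a.2 b.2 h
  let g : {w : Fin (n + 1) | w ≠ v} → ℕ := fun w => ((w : Fin (n + 1)) : ℕ)
  have hginj : Function.Injective g := by
    intro a b h
    exact Subtype.ext (Fin.ext h)
  have hC0 : (G.connectedComponentMk z).supp.ncard = n + 1 - S ω v := by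
    rw [← Set.ncard_image_of_injective _ hginj]
    have himg : g '' (G.connectedComponentMk z).supp = ((range (n + 1) \ D f v n : Finset ℕ) : Set ℕ) := by
      ext j
      rw [Finset.coe_sdiff, Set.mem_sdiff, Finset.mem_coe, Finset.mem_coe, mem_range]
      constructor
      · rintro ⟨w, hw, rfl⟩
        rw [SimpleGraph.ConnectedComponent.mem_supp_iff, SimpleGraph.ConnectedComponent.eq] at hw
        refine ⟨w.1.2, ?_⟩
        intro h
        exact h0D ((hstat w z hw).mp h)
      · rintro ⟨h1, h2⟩
        have hne : (⟨j, h1⟩ : Fin (n + 1)) ≠ v := by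
          intro h
          apply h2
          have : j = (v : ℕ) := by rw [← h]
          rw [this]
          exact hvD
        refine ⟨⟨⟨j, h1⟩, hne⟩, ?_, rfl⟩
        rw [SimpleGraph.ConnectedComponent.mem_supp_iff, SimpleGraph.ConnectedComponent.eq]
        exact hreach j _ rfl h2
    rw [himg, Set.ncard_coe_finset, card_sdiff_of_subset hDsub, card_range, hSc]
  have hCle : ∀ C : G.ConnectedComponent, C.supp.ncard ≤ n + 1 - S ω v := by
    intro C
    induction C using SimpleGraph.ConnectedComponent.ind with
    | _ u =>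
      by_cases hu : ((u : Fin (n + 1)) : ℕ) ∈ D f v n
      · rw [← Set.ncard_image_of_injective _ hginj]
        have hsub : g '' (G.connectedComponentMk u).supp ⊆
            (((D f v n).erase (v : ℕ) : Finset ℕ) : Set ℕ) := by
          rintro j ⟨w, hw, rfl⟩
          rw [SimpleGraph.ConnectedComponent.mem_supp_iff,
            SimpleGraph.ConnectedComponent.eq] at hw
          rw [Finset.mem_coe, Finset.mem_erase]
          refine ⟨?_, (hstat w u hw).mpr hu⟩
          intro h
          exact w.2 (Fin.ext h)
        have h1 := Set.ncard_le_ncard hsub (Finset.finite_toSet _)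
        rw [Set.ncard_coe_finset, card_erase_of_mem hvD, hSc] at h1
        omega
      · have : G.connectedComponentMk u = G.connectedComponentMk z := by
          rw [SimpleGraph.ConnectedComponent.eq]
          exact hreach _ u rfl hu
        rw [this, hC0]
  unfold cen
  apply le_antisymm
  · exact ciSup_le' hCle
  · rw [← hC0]
    exact le_ciSup (f := fun C : G.ConnectedComponent => C.supp.ncard)
      ⟨n + 1 - S ω v, by rintro x ⟨C, rfl⟩; exact hCle C⟩ (G.connectedComponentMk z)

end Pool.Agent.R254.UA
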