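import Pool.Agent.R254.UA.Stm

open Finset Filter
open scoped Topology

namespace Pool.Agent.R254.UA

namespace Conc

lemma En_mono {n : ℕ} {F G : Par n → ℝ} (h : ∀ ω, F ω ≤ G ω) : En F ≤ En G := by
  unfold En
  exact div_le_div_of_nonneg_right (Finset.sum_le_sum fun ω _ => h ω) (Nat.cast_nonneg _)

lemma En_sum {n : ℕ} (s : Finset ℕ) (F : ℕ → Par n → ℝ) :
    En (fun ω => ∑ i ∈ s, F i ω) = ∑ i ∈ s, En (F i) := by
  unfold En
  rw [Finset.sum_comm, Finset.sum_div]

lemma En_div {n : ℕ} (F : Par n → ℝ) (c : ℝ) : En (fun ω => F ω / c) = En F / c := by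
  unfold En
  rw [← Finset.sum_div, div_right_comm]

lemma fact2 (a η : ℝ) (ha : 0 < a) (hη : 0 < η) (L : ℕ) :
    ∀ᶠ K : ℕ in atTop,
      |(1 - 1 / (a * K)) ^ (L * K) - Real.exp (-(L : ℝ) / a)| ≤ η / (4 * a) := by
  have h1 := (Real.tendsto_one_add_div_pow_exp (-1 / a)).pow L
  have h2 : Real.exp (-1 / a) ^ L = Real.exp (-(L : ℝ) / a) := by
    rw [← Real.exp_nat_mul]
    congr 1
    ring
  rw [h2] at h1
  have h3 := (Metric.tendsto_atTop.1 h1) (η / (4 * a)) (by positivity)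
  obtain ⟨N, hN⟩ := h3
  filter_upwards [eventually_ge_atTop N] with K hK
  have h4 := hN K hK
  rw [Real.dist_eq] at h4
  have h5 : (1 - 1 / (a * K)) ^ (L * K) = ((1 + (-1 / a) / (K : ℝ)) ^ K) ^ L := by
    rw [← pow_mul, mul_comm K L]
    congr 1
    rw [div_div]
    ring
  rw [h5]
  exact h4.le

lemma fact3 (η ε : ℝ) (hη : 0 < η) (hε : 0 < ε) (L : ℕ) (hL : 1 ≤ L) :
    ∀ᶠ K : ℕ in atTop,
      3 * ((L * K : ℕ) : ℝ) * (1 + Real.log ((L * K : ℕ) : ℝ)) / (η * K / 2) ^ 2 ≤ ε := by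
  have h1 : Tendsto (fun K : ℕ => Real.log (K : ℝ) / (K : ℝ)) atTop (𝓝 0) :=
    Real.isLittleO_log_id_atTop.tendsto_div_nhds_zero.comp tendsto_natCast_atTop_atTop
  have h2 : Tendsto (fun K : ℕ => (1 + Real.log L) / (K : ℝ)) atTop (𝓝 0) :=
    tendsto_const_div_atTop_nhds_zero_nat _
  have h3 : Tendsto (fun K : ℕ => 12 * (L : ℝ) / η ^ 2 *
      ((1 + Real.log L) / (K : ℝ) + Real.log (K : ℝ) / (K : ℝ))) atTop (𝓝 0) := by
    have := (h2.add h1).const_mul (12 * (L : ℝ) / η ^ 2)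
    simpa using this
  have h4 := h3.eventually (ge_mem_nhds hε)
  filter_upwards [h4, eventually_ge_atTop 1] with K hK hK1
  refine le_trans (le_of_eq ?_) hK
  have hK0 : (0 : ℝ) < K := by exact_mod_cast hK1
  have hL0 : (0 : ℝ) < L := by exact_mod_cast hL
  push_cast
  rw [Real.log_mul hL0.ne' hK0.ne']
  field_simp
  ring

end Conc

open Conc in
theorem conc (hT : TailStmt) (hV : VarStmt) (hM : MeanStmt) : ConcStmt := by
  intro a η ε ha hη hε L hL
  have hKa : ∀ᶠ K : ℕ in atTop, 1 / a < (K : ℝ) :=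
    tendsto_natCast_atTop_atTop.eventually (eventually_gt_atTop _)
  obtain ⟨K₀, hK₀⟩ := eventually_atTop.1
    (((fact2 a η ha hη L).and (fact3 η ε hη hε L hL)).and (hKa.and (eventually_ge_atTop 1)))
  refine ⟨K₀, fun K hK => ?_⟩
  obtain ⟨⟨h2, h3⟩, hKa, hK1⟩ := hK₀ K hK
  have hK0 : (0 : ℝ) < K := by exact_mod_cast hK1
  have haK : 1 < a * K := by
    rw [div_lt_iff₀ ha] at hKa
    linarith
  have hx0 : 0 < 1 / (a * K) := by positivity
  have hx1 : 1 / (a * K) < 1 := by rw [div_lt_one (by positivity)]; exact haK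
  have h4 := (Metric.tendsto_atTop.1 (hM.1 _ hx0 hx1 (L * K))) (η * K / 4) (by positivity)
  obtain ⟨N, hN⟩ := h4
  filter_upwards [eventually_ge_atTop N, eventually_ge_atTop (L * K)] with n hn hnm
  have h5 := hN n hn
  rw [Real.dist_eq] at h5
  set s := ⌊(1 / (a * K)) * n⌋₊ with hs
  have hsn : s ≤ n := by
    rw [hs]
    apply Nat.floor_le_of_le
    have : (0 : ℝ) ≤ n := Nat.cast_nonneg n
    nlinarith
  set μ := En (fun ω : Par n => cnt s (L * K) ω) with hμ
  have hmean : μ = ∑ i ∈ range (L * K), pn n s i := by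
    rw [hμ]
    unfold cnt
    rw [En_sum]
    refine Finset.sum_congr rfl fun i hi => ?_
    have := Finset.mem_range.1 hi
    exact hT n s i hsn (by omega)
  have h6 : |μ - a * (1 - Real.exp (-(L : ℝ) / a)) * K| ≤ η * K / 2 := by
    have e1 : (1 - (1 - 1 / (a * K)) ^ (L * K)) / (1 / (a * K))
        = a * K * (1 - (1 - 1 / (a * K)) ^ (L * K)) := by
      rw [div_div_eq_mul_div, div_one]
      ring
    rw [← hmean, e1] at h5
    have e2 : |a * K * (1 - (1 - 1 / (a * K)) ^ (L * K)) -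
        a * (1 - Real.exp (-(L : ℝ) / a)) * K| ≤ η * K / 4 := by
      have e3 : a * K * (1 - (1 - 1 / (a * K)) ^ (L * K)) -
        a * (1 - Real.exp (-(L : ℝ) / a)) * K
          = -(a * K) * ((1 - 1 / (a * K)) ^ (L * K) - Real.exp (-(L : ℝ) / a)) := by ring
      rw [e3, abs_mul, abs_neg, abs_of_pos (by positivity : (0 : ℝ) < a * K)]
      calc a * K * |(1 - 1 / (a * K)) ^ (L * K) - Real.exp (-(L : ℝ) / a)|
          ≤ a * K * (η / (4 * a)) := mul_le_mul_of_nonneg_left h2 (by positivity)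
        _ = η * K / 4 := by field_simp
    calc |μ - a * (1 - Real.exp (-(L : ℝ) / a)) * K|
        ≤ |μ - a * K * (1 - (1 - 1 / (a * K)) ^ (L * K))| +
          |a * K * (1 - (1 - 1 / (a * K)) ^ (L * K)) -
            a * (1 - Real.exp (-(L : ℝ) / a)) * K| := abs_sub_le _ _ _
      _ ≤ η * K / 4 + η * K / 4 := add_le_add h5.le e2
      _ = η * K / 2 := by ring
  have hpos : (0 : ℝ) < (η * K / 2) ^ 2 := by positivity
  have h7 : En (fun ω : Par n => if η * K < |cnt s (L * K) ω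
        - a * (1 - Real.exp (-(L : ℝ) / a)) * K| then (1 : ℝ) else 0)
      ≤ En (fun ω : Par n => (cnt s (L * K) ω - μ) ^ 2 / (η * K / 2) ^ 2) := by
    refine En_mono fun ω => ?_
    split_ifs with h
    · rw [le_div_iff₀ hpos, one_mul]
      have h8 : η * K / 2 ≤ |cnt s (L * K) ω - μ| := by
        have := abs_sub_le (cnt s (L * K) ω) μ (a * (1 - Real.exp (-(L : ℝ) / a)) * K)
        linarith
      rw [← sq_abs (cnt s (L * K) ω - μ)]
      exact pow_le_pow_left₀ (by positivity) h8 2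
    · positivity
  refine h7.trans ?_
  rw [En_div]
  have hm1 : 1 ≤ L * K := Nat.mul_pos hL hK1
  have h9 := hV n s (L * K) hsn hm1 (by omega)
  refine le_trans (div_le_div_of_nonneg_right h9 hpos.le) ?_
  exact h3

end Pool.Agent.R254.UA

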