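import Pool.Agent.R254.UA.Stm

/-! UA-9: the core statement from selection, concentration and the tail count. -/

open Finset Filter
open scoped Topology

namespace Pool.Agent.R254.UA.CoreAux

lemma En_mono {n : ℕ} {F G : Par n → ℝ} (h : ∀ ω, F ω ≤ G ω) : En F ≤ En G := by
  unfold En
  exact div_le_div_of_nonneg_right (Finset.sum_le_sum fun ω _ => h ω) (by positivity)

lemma En_add {n : ℕ} (F G : Par n → ℝ) : En (fun ω => F ω + G ω) = En F + En G := by
  unfold En
  rw [Finset.sum_add_distrib, add_div]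

lemma ind_nonneg {n : ℕ} (s i : ℕ) (ω : Par n) : 0 ≤ ind s i ω := by
  unfold ind
  split_ifs <;> norm_num

lemma card_fin (n : ℕ) (p : ℕ → Prop) [DecidablePred p] :
    ((univ.filter (fun v : Fin (n + 1) => p v)).card : ℝ) =
      ∑ i ∈ range (n + 1), if p i then (1 : ℝ) else 0 := by
  rw [Finset.card_filter]
  push_cast
  exact Fin.sum_univ_eq_sum_range (fun i => if p i then (1 : ℝ) else 0) (n + 1)

lemma point {n : ℕ} (s i : ℕ) (ω : Par n) :
    ind s i ω - ind ((n + 1) / 2) i ω ≤ if s < S ω i ∧ 2 * S ω i ≤ n + 1 then (1 : ℝ) else 0 := by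
  unfold ind
  split_ifs with h1 h2 h3 h4 h5 h6 h7 <;> try norm_num
  all_goals exfalso; omega

/-- mid is large -/
lemma mid_card {n : ℕ} (s M : ℕ) (ω : Par n) (hM : M ≤ n + 1) :
    cnt s M ω - ∑ i ∈ range (n + 1), ind ((n + 1) / 2) i ω ≤
      ((univ.filter (fun v : Fin (n + 1) => s < S ω v ∧ 2 * S ω v ≤ n + 1)).card : ℝ) := by
  rw [card_fin n (fun v => s < S ω v ∧ 2 * S ω v ≤ n + 1)]
  have h1 : cnt s M ω ≤ ∑ i ∈ range (n + 1), ind s i ω :=
    Finset.sum_le_sum_of_subset_of_nonneg (Finset.range_subset_range.2 hM)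
      (fun i _ _ => ind_nonneg s i ω)
  have h2 : ∑ i ∈ range (n + 1), (ind s i ω - ind ((n + 1) / 2) i ω) ≤
      ∑ i ∈ range (n + 1), if s < S ω i ∧ 2 * S ω i ≤ n + 1 then (1 : ℝ) else 0 :=
    Finset.sum_le_sum fun i _ => point s i ω
  rw [Finset.sum_sub_distrib] at h2
  linarith

lemma big_card {n : ℕ} (s M : ℕ) (ω : Par n) (hM : M ≤ n + 1) :
    ((univ.filter (fun v : Fin (n + 1) => s < S ω v)).card : ℝ) =
      cnt s M ω + ∑ i ∈ Ico M (n + 1), ind s i ω := by
  rw [card_fin n (fun v => s < S ω v)]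
  unfold cnt
  rw [Finset.sum_range_add_sum_Ico _ hM]
  refine Finset.sum_congr rfl fun i _ => ?_
  unfold ind
  congr

lemma card_up {n : ℕ} (s K : ℕ) (ω : Par n) (A : Finset (Fin (n + 1)))
    (hA : A ⊆ univ.filter (fun v : Fin (n + 1) => s < S ω v)) :
    ((A.filter (fun v : Fin (n + 1) => (v : ℕ) < K)).card : ℝ) ≤ cnt s K ω := by
  have h1 : (A.filter (fun v : Fin (n + 1) => (v : ℕ) < K)).card ≤
      (univ.filter (fun v : Fin (n + 1) => s < S ω v ∧ (v : ℕ) < K)).card := by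
    refine Finset.card_le_card fun v hv => ?_
    rw [Finset.mem_filter] at hv ⊢
    exact ⟨Finset.mem_univ _, (Finset.mem_filter.1 (hA hv.1)).2, hv.2⟩
  have h2 : ((A.filter (fun v : Fin (n + 1) => (v : ℕ) < K)).card : ℝ) ≤
      ((univ.filter (fun v : Fin (n + 1) => s < S ω v ∧ (v : ℕ) < K)).card : ℝ) := by
    exact_mod_cast h1
  refine h2.trans ?_
  rw [card_fin n (fun v => s < S ω v ∧ v < K)]
  have h3 : ∀ i, (if s < S ω i ∧ i < K then (1 : ℝ) else 0) = if i < K then ind s i ω else 0 := by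
    intro i
    unfold ind
    by_cases ha : s < S ω i <;> by_cases hb : i < K <;> simp [ha, hb]
  rw [Finset.sum_congr rfl fun i _ => h3 i, ← Finset.sum_filter]
  refine Finset.sum_le_sum_of_subset_of_nonneg ?_ (fun i _ _ => ind_nonneg s i ω)
  intro i hi
  rw [Finset.mem_filter] at hi
  exact Finset.mem_range.2 hi.2

lemma card_low {n : ℕ} (s K : ℕ) (ω : Par n) (hK : K ≤ n + 1) (A : Finset (Fin (n + 1)))
    (hA : univ.filter (fun v : Fin (n + 1) => s < S ω v ∧ 2 * S ω v ≤ n + 1) ⊆ A) :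
    cnt s K ω - ∑ i ∈ range (n + 1), ind ((n + 1) / 2) i ω ≤
      ((A.filter (fun v : Fin (n + 1) => (v : ℕ) < K)).card : ℝ) := by
  have h1 : (univ.filter (fun v : Fin (n + 1) => (s < S ω v ∧ 2 * S ω v ≤ n + 1) ∧
      (v : ℕ) < K)).card ≤ (A.filter (fun v : Fin (n + 1) => (v : ℕ) < K)).card := by
    refine Finset.card_le_card fun v hv => ?_
    rw [Finset.mem_filter] at hv ⊢
    exact ⟨hA (Finset.mem_filter.2 ⟨Finset.mem_univ _, hv.2.1⟩), hv.2.2⟩
  have h2 : ((univ.filter (fun v : Fin (n + 1) => (s < S ω v ∧ 2 * S ω v ≤ n + 1) ∧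
      (v : ℕ) < K)).card : ℝ) ≤ ((A.filter (fun v : Fin (n + 1) => (v : ℕ) < K)).card : ℝ) := by
    exact_mod_cast h1
  refine le_trans ?_ h2
  rw [card_fin n (fun v => (s < S ω v ∧ 2 * S ω v ≤ n + 1) ∧ v < K)]
  have h3 : ∀ i, (if (s < S ω i ∧ 2 * S ω i ≤ n + 1) ∧ i < K then (1 : ℝ) else 0) =
      if i < K then (if s < S ω i ∧ 2 * S ω i ≤ n + 1 then (1 : ℝ) else 0) else 0 := by
    intro i
    by_cases ha : s < S ω i ∧ 2 * S ω i ≤ n + 1 <;> by_cases hb : i < K <;> simp [ha, hb]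
  rw [Finset.sum_congr rfl fun i _ => h3 i, ← Finset.sum_filter]
  have h4 : (range (n + 1)).filter (fun i => i < K) = range K := by
    ext i
    rw [Finset.mem_filter, Finset.mem_range, Finset.mem_range]
    omega
  rw [h4]
  have h5 : ∑ i ∈ range K, (ind s i ω - ind ((n + 1) / 2) i ω) ≤
      ∑ i ∈ range K, if s < S ω i ∧ 2 * S ω i ≤ n + 1 then (1 : ℝ) else 0 :=
    Finset.sum_le_sum fun i _ => point s i ω
  rw [Finset.sum_sub_distrib] at h5
  have h6 : ∑ i ∈ range K, ind ((n + 1) / 2) i ω ≤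
      ∑ i ∈ range (n + 1), ind ((n + 1) / 2) i ω :=
    Finset.sum_le_sum_of_subset_of_nonneg (Finset.range_subset_range.2 hK)
      (fun i _ _ => ind_nonneg _ i ω)
  unfold cnt
  linarith

lemma phi_cont (c : ℝ) (hc : 1 < c) : ContinuousAt phi c := by
  unfold phi
  have : c ≠ 0 := by linarith
  fun_prop (disch := assumption)

lemma s_small (a : ℝ) (K n : ℕ) (haK : 2 ≤ a * K) : 2 * ⌊(1 / (a * K)) * (n : ℝ)⌋₊ ≤ n + 1 := by
  have h0 : 0 < a * K := by linarith
  have h1 : ((⌊(1 / (a * K)) * (n : ℝ)⌋₊ : ℕ) : ℝ) ≤ (1 / (a * K)) * n :=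
    Nat.floor_le (by positivity)
  have h2 : (1 / (a * K)) * (n : ℝ) ≤ (1 / 2) * n := by
    refine mul_le_mul_of_nonneg_right ?_ (Nat.cast_nonneg n)
    exact one_div_le_one_div_of_le (by norm_num) haK
  have h3 : (2 : ℝ) * ((⌊(1 / (a * K)) * (n : ℝ)⌋₊ : ℕ) : ℝ) ≤ n := by linarith
  have h4 : 2 * ⌊(1 / (a * K)) * (n : ℝ)⌋₊ ≤ n := by exact_mod_cast h3
  omega

lemma or6 (p p1 p2 p3 p4 p5 p6 : Prop) [Decidable p] [Decidable p1] [Decidable p2] [Decidable p3]
    [Decidable p4] [Decidable p5] [Decidable p6]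
    (h : ¬ p1 → ¬ p2 → ¬ p3 → ¬ p4 → ¬ p5 → ¬ p6 → ¬ p) :
    (if p then (1 : ℝ) else 0) ≤ (if p1 then (1 : ℝ) else 0) + ((if p2 then (1 : ℝ) else 0) +
      ((if p3 then (1 : ℝ) else 0) + ((if p4 then (1 : ℝ) else 0) + ((if p5 then (1 : ℝ) else 0) +
        (if p6 then (1 : ℝ) else 0))))) := by
  have nn : ∀ (q : Prop) [Decidable q], (0 : ℝ) ≤ if q then (1 : ℝ) else 0 := by
    intro q _
    split_ifs <;> norm_num
  by_cases hp : p
  · rw [if_pos hp]
    have n1 := nn p1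
    have n2 := nn p2
    have n3 := nn p3
    have n4 := nn p4
    have n5 := nn p5
    have n6 := nn p6
    by_cases h1 : p1
    · rw [if_pos h1]; linarith
    by_cases h2 : p2
    · rw [if_pos h2]; linarith
    by_cases h3 : p3
    · rw [if_pos h3]; linarith
    by_cases h4 : p4
    · rw [if_pos h4]; linarith
    by_cases h5 : p5
    · rw [if_pos h5]; linarith
    by_cases h6 : p6
    · rw [if_pos h6]; linarith
    exact absurd hp (h h1 h2 h3 h4 h5 h6)
  · rw [if_neg hp]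
    have n1 := nn p1
    have n2 := nn p2
    have n3 := nn p3
    have n4 := nn p4
    have n5 := nn p5
    have n6 := nn p6
    linarith

theorem core (hSel : SelStmt) (hConc : ConcStmt) (hTail : TailCountStmt) : CoreStmt := by
  classical
  intro c hc δ hδ ε hε
  -- the two values near c
  obtain ⟨r, hr0, hr⟩ := Metric.continuousAt_iff.1 (phi_cont c hc) (δ / 4) (by positivity)
  obtain ⟨t, ht0, htr, ht1⟩ : ∃ t : ℝ, 0 < t ∧ t < r ∧ t < 1 :=
    ⟨min r 1 / 2, by positivity, by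
      have := min_le_left r 1
      have h0 : 0 < min r 1 := lt_min hr0 one_pos
      linarith, by
      have := min_le_right r 1
      have h0 : 0 < min r 1 := lt_min hr0 one_pos
      linarith⟩
  have hup : phi (c + t) ≤ phi c + δ / 4 := by
    have := @hr (c + t) (by rw [Real.dist_eq]; rw [abs_lt]; constructor <;> linarith)
    rw [Real.dist_eq, abs_lt] at this
    linarith [this.2]
  have hlow : phi c - δ / 4 ≤ phi (c - t) := by
    have := @hr (c - t) (by rw [Real.dist_eq]; rw [abs_lt]; constructor <;> linarith)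
    rw [Real.dist_eq, abs_lt] at this
    linarith [this.1]
  obtain ⟨η, hη0, hη1, hη2⟩ : ∃ η : ℝ, 0 < η ∧ η ≤ t / 8 ∧ η ≤ δ / 8 :=
    ⟨min (t / 8) (δ / 8), by positivity, min_le_left _ _, min_le_right _ _⟩
  have hε6 : 0 < ε / 6 := by positivity
  have hct : 0 < c + t := by linarith
  have hct' : 0 < c - t := by linarith
  -- the parameter L for the upper deviation
  obtain ⟨L, hL⟩ := exists_nat_ge ((c + t) ^ 2 / (t / 2) + 1)
  have hLpos : (1 : ℝ) ≤ L := by
    have : 0 ≤ (c + t) ^ 2 / (t / 2) := by positivity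
    linarith
  have hL1 : 1 ≤ L := by exact_mod_cast hLpos
  have hLexp : (c + t) * (1 - Real.exp (-(L : ℝ) / (c + t))) ≥ c + t / 2 := by
    have h1 : Real.exp (-(L : ℝ) / (c + t)) ≤ (t / 2) / (c + t) := by
      rw [neg_div, Real.exp_neg, inv_le_comm₀ (Real.exp_pos _) (by positivity), inv_div]
      have h2 : (c + t) / (t / 2) ≤ L / (c + t) := by
        rw [le_div_iff₀ hct]
        calc (c + t) / (t / 2) * (c + t) = (c + t) ^ 2 / (t / 2) := by ring
          _ ≤ L := by linarith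
      linarith [Real.add_one_le_exp ((L : ℝ) / (c + t))]
    have h3 : (c + t) * Real.exp (-(L : ℝ) / (c + t)) ≤ t / 2 := by
      calc (c + t) * Real.exp (-(L : ℝ) / (c + t)) ≤ (c + t) * ((t / 2) / (c + t)) :=
            mul_le_mul_of_nonneg_left h1 hct.le
        _ = t / 2 := by field_simp
    linarith
  obtain ⟨L₀, hL₀⟩ := hTail.1 (c - t) η (ε / 6) hct' hη0 hε6
  obtain ⟨L', hL'1, hL'2⟩ : ∃ L' : ℕ, 1 ≤ L' ∧ L₀ ≤ L' := ⟨max 1 L₀, le_max_left _ _, le_max_right _ _⟩
  obtain ⟨K1, hK1⟩ := hConc (c + t) η (ε / 6) hct hη0 hε6 L hL1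
  obtain ⟨K2, hK2⟩ := hConc (c + t) η (ε / 6) hct hη0 hε6 1 le_rfl
  obtain ⟨K3, hK3⟩ := hConc (c - t) η (ε / 6) hct' hη0 hε6 L' hL'1
  obtain ⟨K4, hK4⟩ := hConc (c - t) η (ε / 6) hct' hη0 hε6 1 le_rfl
  obtain ⟨K5, hK5⟩ := hL₀ L' hL'2
  obtain ⟨K6, hK6⟩ := hTail.2 η (ε / 6) hη0 hε6
  obtain ⟨K7, hK7⟩ := exists_nat_ge (4 / t + 2 / (c - t) + 2)
  refine ⟨K1 + K2 + K3 + K4 + K5 + K6 + K7, ?_⟩
  intro K hK
  have hKr : 4 / t + 2 / (c - t) + 2 ≤ K := by
    refine hK7.trans ?_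
    exact_mod_cast (by omega : K7 ≤ K)
  have hq1 : 0 < 4 / t := by positivity
  have hq2 : 0 < 2 / (c - t) := by positivity
  have hK0 : (0 : ℝ) < K := by linarith
  have hKt : 4 ≤ t * K := by
    have : 4 / t ≤ K := by linarith
    rw [div_le_iff₀ ht0] at this
    linarith
  have hKc : 2 ≤ (c - t) * K := by
    have : 2 / (c - t) ≤ K := by linarith
    rw [div_le_iff₀ hct'] at this
    linarith
  have hKc' : 2 ≤ (c + t) * K := by
    have : (c - t) * K ≤ (c + t) * K := mul_le_mul_of_nonneg_right (by linarith) hK0.le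
    linarith
  filter_upwards [hK1 K (by omega), hK2 K (by omega), hK3 K (by omega), hK4 K (by omega),
    hK5 K (by omega), eventually_ge_atTop (L * K + L' * K + K)] with n e1 e2 e3 e4 e5 hn
  have e6 := hK6 K (by omega) n
  have hLK : L * K ≤ n + 1 := by
    have := Nat.zero_le (L' * K)
    omega
  have hLK' : L' * K ≤ n + 1 := by
    have := Nat.zero_le (L * K)
    omega
  have hKn : K ≤ n + 1 := by omega
  have key : En (fun ω : Par n => if ∃ A, IsTop ω ⌈c * K⌉₊ A ∧ Dev K c δ A then (1 : ℝ) else 0) ≤ _ :=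
    En_mono fun ω => or6 _ (p1 := η * K < |cnt ⌊(1 / ((c + t) * K)) * n⌋₊ (L * K) ω
        - (c + t) * (1 - Real.exp (-(L : ℝ) / (c + t))) * K|)
      (p2 := η * K < |cnt ⌊(1 / ((c + t) * K)) * n⌋₊ (1 * K) ω
        - (c + t) * (1 - Real.exp (-((1 : ℕ) : ℝ) / (c + t))) * K|)
      (p3 := η * K < |cnt ⌊(1 / ((c - t) * K)) * n⌋₊ (L' * K) ω
        - (c - t) * (1 - Real.exp (-(L' : ℝ) / (c - t))) * K|)
      (p4 := η * K < |cnt ⌊(1 / ((c - t) * K)) * n⌋₊ (1 * K) ω
        - (c - t) * (1 - Real.exp (-((1 : ℕ) : ℝ) / (c - t))) * K|)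
      (p5 := η * K < ∑ i ∈ Ico (L' * K) (n + 1), ind ⌊(1 / ((c - t) * K)) * n⌋₊ i ω)
      (p6 := η * K < ∑ i ∈ range (n + 1), ind ((n + 1) / 2) i ω) (by
        intro f1 f2 f3 f4 f5 f6
        rintro ⟨A, hA, hdev⟩
        rw [not_lt, abs_le] at f1 f2 f3 f4
        rw [not_lt] at f5 f6
        rw [one_mul] at f2 f4
        rw [Nat.cast_one] at f2 f4
        change _ ≤ _ - phi (c + t) * K ∧ _ - phi (c + t) * K ≤ _ at f2
        change _ ≤ _ - phi (c - t) * K ∧ _ - phi (c - t) * K ≤ _ at f4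
        have hsel1 := (hSel n ω ⌈c * K⌉₊ ⌊(1 / ((c + t) * K)) * (n : ℝ)⌋₊ A hA
          (s_small _ K n hKc')).1
        have hsel2 := (hSel n ω ⌈c * K⌉₊ ⌊(1 / ((c - t) * K)) * (n : ℝ)⌋₊ A hA
          (s_small _ K n hKc)).2
        have hηK1 : η * K ≤ t / 8 * K := mul_le_mul_of_nonneg_right hη1 hK0.le
        have hηK2 : η * K ≤ δ / 8 * K := mul_le_mul_of_nonneg_right hη2 hK0.le
        have hδK : 0 < δ * K := by positivity
        -- upper
        have hA1 : A ⊆ univ.filter (fun v : Fin (n + 1) =>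
            ⌊(1 / ((c + t) * K)) * (n : ℝ)⌋₊ < S ω v) := by
          apply hsel1
          have h1 := mid_card ⌊(1 / ((c + t) * K)) * (n : ℝ)⌋₊ (L * K) ω hLK
          have h2 : (c + t / 2) * K ≤ (c + t) * (1 - Real.exp (-(L : ℝ) / (c + t))) * K :=
            mul_le_mul_of_nonneg_right hLexp hK0.le
          have h3 := Nat.ceil_lt_add_one (by positivity : 0 ≤ c * (K : ℝ))
          have h4 : ((⌈c * K⌉₊ : ℕ) : ℝ) ≤ _ := (le_trans (by linarith [f1.1]) h1)
          exact_mod_cast h4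
        have hB1 := card_up _ K ω A hA1
        -- lower
        have hA2 : univ.filter (fun v : Fin (n + 1) =>
            ⌊(1 / ((c - t) * K)) * (n : ℝ)⌋₊ < S ω v ∧ 2 * S ω v ≤ n + 1) ⊆ A := by
          apply hsel2
          have h1 := big_card ⌊(1 / ((c - t) * K)) * (n : ℝ)⌋₊ (L' * K) ω hLK'
          have h2 : (c - t) * (1 - Real.exp (-(L' : ℝ) / (c - t))) * K ≤ (c - t) * 1 * K := by
            refine mul_le_mul_of_nonneg_right (mul_le_mul_of_nonneg_left ?_ hct'.le) hK0.le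
            linarith [Real.exp_pos (-(L' : ℝ) / (c - t))]
          have h3 := Nat.le_ceil (c * (K : ℝ))
          have h4 : ((univ.filter (fun v : Fin (n + 1) =>
            ⌊(1 / ((c - t) * K)) * (n : ℝ)⌋₊ < S ω v)).card : ℝ) ≤ (⌈c * K⌉₊ : ℕ) := by
            rw [h1]
            linarith [f3.2]
          exact_mod_cast h4
        have hB2 := card_low _ K ω hKn A hA2
        -- conclusion
        unfold Dev at hdev
        rw [lt_abs] at hdev
        rcases hdev with h | h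
        · have h5 : (phi c + δ) * K < ((A.filter (fun v : Fin (n + 1) => (v : ℕ) < K)).card : ℝ) := by
            rw [← lt_div_iff₀ hK0]
            linarith
          have h6 : phi (c + t) * K ≤ (phi c + δ / 4) * K := mul_le_mul_of_nonneg_right hup hK0.le
          linarith [f2.2]
        · have h5 : ((A.filter (fun v : Fin (n + 1) => (v : ℕ) < K)).card : ℝ) < (phi c - δ) * K := by
            rw [← div_lt_iff₀ hK0]
            linarith
          have h6 : (phi c - δ / 4) * K ≤ phi (c - t) * K := mul_le_mul_of_nonneg_right hlow hK0.le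
          linarith [f4.1])
  simp only [En_add] at key
  linarith

end Pool.Agent.R254.UA.CoreAux

namespace Pool.Agent.R254.UA

theorem core (hSel : SelStmt) (hConc : ConcStmt) (hTail : TailCountStmt) : CoreStmt :=
  CoreAux.core hSel hConc hTail

end Pool.Agent.R254.UA
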