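import Mathlib

/-!
# Early vertices among the most central vertices of a uniform attachment tree (MP_6a6beb_pr)
-/

open Finset Filter
open scoped Topology

namespace Pool.Agent.R254.UA

/-- Attachment choices: for `k < n`, vertex `k+1` is joined to vertex `ω k ∈ {0,…,k}`. -/
abbrev Par (n : ℕ) := (k : Fin n) → Fin (k + 1)

/-- The choices as a function on `ℕ`. -/
def ext {n : ℕ} (ω : Par n) : ℕ → ℕ := fun k => if h : k < n then (ω ⟨k, h⟩ : ℕ) else 0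

/-- The uniform attachment tree on `{0,…,n}`. -/
def tree {n : ℕ} (ω : Par n) : SimpleGraph (Fin (n + 1)) :=
  SimpleGraph.fromRel (fun a b => ∃ k : Fin n, (a : ℕ) = k + 1 ∧ (b : ℕ) = (ω k : ℕ))

/-- Centrality: number of vertices of the largest connected component after deleting `v`. -/
noncomputable def cen {n : ℕ} (ω : Par n) (v : Fin (n + 1)) : ℕ :=
  ⨆ C : ((tree ω).induce {w | w ≠ v}).ConnectedComponent, C.supp.ncard

/-- `A` consists of `m` vertices of smallest centrality. -/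
def IsTop {n : ℕ} (ω : Par n) (m : ℕ) (A : Finset (Fin (n + 1))) : Prop :=
  A.card = m ∧ ∀ v ∈ A, ∀ w, w ∉ A → cen ω v ≤ cen ω w

/-- Average over all choices. -/
noncomputable def En {n : ℕ} (F : Par n → ℝ) : ℝ := (∑ ω, F ω) / (Fintype.card (Par n) : ℝ)

/-- Descendants of `i` (with `i` itself) among `0,…,n`. -/
def D (f : ℕ → ℕ) (i : ℕ) : ℕ → Finset ℕ
  | 0 => if i = 0 then {0} else ∅
  | n + 1 => if i = n + 1 ∨ f n ∈ D f i n then insert (n + 1) (D f i n) else D f i n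

/-- Size of the subtree of `i` in the tree on `0,…,n`. -/
def S {n : ℕ} (ω : Par n) (i : ℕ) : ℕ := (D (ext ω) i n).card

/-- The function `φ(c) = c (1 - e^{-1/c})`. -/
noncomputable def phi (c : ℝ) : ℝ := c * (1 - Real.exp (-1 / c))

/-- The deviation event for a set `A`. -/
def Dev {n : ℕ} (K : ℕ) (c δ : ℝ) (A : Finset (Fin (n + 1))) : Prop :=
  δ < |((A.filter (fun v : Fin (n + 1) => (v : ℕ) < K)).card : ℝ) / K - phi c|

open Classical in
/-- `P(|R_{K,n}(c) - φ(c)| > δ)`, ties broken uniformly at random (uniform choice among the sets of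
`⌈cK⌉` most central vertices). -/
noncomputable def probDev (n K : ℕ) (c δ : ℝ) : ℝ :=
  En (fun ω : Par n =>
    (((univ.filter (IsTop ω ⌈c * K⌉₊)).filter (Dev K c δ)).card : ℝ)
      / ((univ.filter (IsTop ω ⌈c * K⌉₊)).card : ℝ))

/-- Final statement: the answer to Q1. -/
def MainStmt : Prop :=
  ∀ c : ℝ, 1 < c → ∀ δ : ℝ, 0 < δ →
    Tendsto (fun K : ℕ => limsup (fun n : ℕ => probDev n K c δ) atTop) atTop (𝓝 0)

/-! ## Pieces -/

/-- U1: centrality of a vertex with a subtree of at most half the size. -/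
def CenStmt : Prop :=
  ∀ (n : ℕ) (ω : Par n) (v : Fin (n + 1)), 2 * S ω v ≤ n + 1 → cen ω v = n + 1 - S ω v

/-- U2: selection. -/
def SelStmt : Prop :=
  ∀ (n : ℕ) (ω : Par n) (m s : ℕ) (A : Finset (Fin (n + 1))), IsTop ω m A → 2 * s ≤ n + 1 →
    (m ≤ (univ.filter (fun v : Fin (n + 1) => s < S ω v ∧ 2 * S ω v ≤ n + 1)).card →
      A ⊆ univ.filter (fun v : Fin (n + 1) => s < S ω v)) ∧
    ((univ.filter (fun v : Fin (n + 1) => s < S ω v)).card ≤ m →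
      univ.filter (fun v : Fin (n + 1) => s < S ω v ∧ 2 * S ω v ≤ n + 1) ⊆ A)

open Classical in
/-- Indicator of `S_i > s`. -/
noncomputable def ind {n : ℕ} (s i : ℕ) (ω : Par n) : ℝ := if s < S ω i then 1 else 0

/-- The tail of the size of a subtree. -/
noncomputable def pn (n s i : ℕ) : ℝ := ((n - s).choose i : ℝ) / (n.choose i : ℝ)

/-- U3: law of the subtree sizes. -/
def TailStmt : Prop :=
  ∀ n s i : ℕ, s ≤ n → i ≤ n → En (fun ω : Par n => ind s i ω) = pn n s i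

/-- U4: covariance bound. -/
def CovStmt : Prop :=
  ∀ n s i j : ℕ, s ≤ n → i < j → j ≤ n →
    En (fun ω : Par n => ind s i ω * ind s j ω)
      ≤ En (fun ω : Par n => ind s i ω) * En (fun ω : Par n => ind s j ω) + 1 / (i + 1)

/-- Number of `i < m` with `S_i > s`. -/
noncomputable def cnt {n : ℕ} (s m : ℕ) (ω : Par n) : ℝ := ∑ i ∈ range m, ind s i ω

/-- U5: variance bound. -/
def VarStmt : Prop :=
  ∀ n s m : ℕ, s ≤ n → 1 ≤ m → m ≤ n + 1 →
    En (fun ω : Par n => (cnt s m ω - En (fun ω' : Par n => cnt s m ω')) ^ 2)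
      ≤ 3 * m * (1 + Real.log m)

/-- U6: asymptotics of the means. -/
def MeanStmt : Prop :=
  (∀ x : ℝ, 0 < x → x < 1 → ∀ m : ℕ,
    Tendsto (fun n : ℕ => ∑ i ∈ range m, pn n ⌊x * n⌋₊ i) atTop (𝓝 ((1 - (1 - x) ^ m) / x))) ∧
  (∀ x : ℝ, 0 < x → x < 1 → ∀ m : ℕ,
    ∀ᶠ n : ℕ in atTop, ∑ i ∈ Ico m (n + 1), pn n ⌊x * n⌋₊ i ≤ (1 - x) ^ m / x + 1) ∧
  (∀ n : ℕ, ∑ i ∈ range (n + 1), pn n ((n + 1) / 2) i ≤ 3)

/-- U7: for a count with mean tending to `μ` and the variance bound, concentration: the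
probability of a deviation by more than `η K`. -/
def ConcStmt : Prop :=
  ∀ (a η ε : ℝ), 0 < a → 0 < η → 0 < ε → ∀ L : ℕ, 1 ≤ L → ∃ K₀ : ℕ, ∀ K, K₀ ≤ K →
    ∀ᶠ n : ℕ in atTop,
      En (fun ω : Par n => if η * K < |cnt ⌊(1 / (a * K)) * n⌋₊ (L * K) ω
        - a * (1 - Real.exp (-(L : ℝ) / a)) * K| then (1 : ℝ) else 0) ≤ ε

/-- U8: tail of the count beyond `L K`, and vertices with more than half of the tree. -/
def TailCountStmt : Prop :=
  (∀ (a η ε : ℝ), 0 < a → 0 < η → 0 < ε → ∃ L₀ : ℕ, ∀ L, L₀ ≤ L → ∃ K₀ : ℕ, ∀ K, K₀ ≤ K →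
    ∀ᶠ n : ℕ in atTop,
      En (fun ω : Par n => if η * K < ∑ i ∈ Ico (L * K) (n + 1), ind ⌊(1 / (a * K)) * n⌋₊ i ω
        then (1 : ℝ) else 0) ≤ ε) ∧
  (∀ (η ε : ℝ), 0 < η → 0 < ε → ∃ K₀ : ℕ, ∀ K, K₀ ≤ K → ∀ n : ℕ,
      En (fun ω : Par n => if η * K < ∑ i ∈ range (n + 1), ind ((n + 1) / 2) i ω
        then (1 : ℝ) else 0) ≤ ε)

open Classical in
/-- U9: core statement, uniform over tie breaking. -/
def CoreStmt : Prop :=
  ∀ c : ℝ, 1 < c → ∀ δ : ℝ, 0 < δ → ∀ ε : ℝ, 0 < ε → ∃ K₀ : ℕ, ∀ K, K₀ ≤ K →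
    ∀ᶠ n : ℕ in atTop,
      En (fun ω : Par n => if ∃ A, IsTop ω ⌈c * K⌉₊ A ∧ Dev K c δ A then (1 : ℝ) else 0) ≤ ε

end Pool.Agent.R254.UA
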