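import Mathlib
import Pool.Agent.R254.UA.Stm

/-!
# Piece U4 (covariance bound) for MP_6a6beb_pr
-/

set_option autoImplicit false

open Finset Filter
open scoped Topology

namespace Pool.Agent.R254.UA

namespace Cov

/-- append a choice -/
def snc {n : ℕ} (ω : Par n) (p : Fin (n + 1)) : Par (n + 1) :=
  Fin.snoc (α := fun k : Fin (n + 1) => Fin ((k : ℕ) + 1)) ω p

theorem sum_par {n : ℕ} (F : Par (n + 1) → ℝ) :
    ∑ ω, F ω = ∑ ω : Par n, ∑ p : Fin (n + 1), F (snc ω p) := by
  rw [← (Fin.snocEquiv (fun k : Fin (n + 1) => Fin ((k : ℕ) + 1))).sum_comp,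
    Fintype.sum_prod_type_right]
  rfl

theorem card_par (n : ℕ) : Fintype.card (Par (n + 1)) = Fintype.card (Par n) * (n + 1) := by
  rw [Fintype.card_pi, Fintype.card_pi, Fin.prod_univ_castSucc]
  simp

theorem card_pos (n : ℕ) : (0 : ℝ) < Fintype.card (Par n) := by
  have : 0 < Fintype.card (Par n) := Fintype.card_pos
  exact_mod_cast this

theorem En_rec {n : ℕ} (F : Par (n + 1) → ℝ) :
    En F = En (fun ω : Par n => (∑ p : Fin (n + 1), F (snc ω p)) / ((n : ℝ) + 1)) := by
  unfold En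
  rw [sum_par, card_par, ← Finset.sum_div]
  have := card_pos n
  push_cast
  field_simp

theorem En_mono {n : ℕ} {F G : Par n → ℝ} (h : ∀ ω, F ω ≤ G ω) : En F ≤ En G :=
  div_le_div_of_nonneg_right (Finset.sum_le_sum fun ω _ => h ω) (card_pos n).le

theorem En_const {n : ℕ} (c : ℝ) : En (fun _ : Par n => c) = c := by
  unfold En
  rw [Finset.sum_const, card_univ, nsmul_eq_mul]
  have := card_pos n
  field_simp

theorem En_mul {n : ℕ} (c : ℝ) (F : Par n → ℝ) : En (fun ω => c * F ω) = c * En F := by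
  unfold En
  rw [← Finset.mul_sum, mul_div_assoc]

theorem En_add {n : ℕ} (F G : Par n → ℝ) : En (fun ω => F ω + G ω) = En F + En G := by
  unfold En
  rw [Finset.sum_add_distrib, add_div]

theorem ext_lt {n : ℕ} (ω : Par n) (p : Fin (n + 1)) (k : ℕ) (hk : k < n) :
    ext (snc ω p) k = ext ω k := by
  unfold ext snc
  rw [dif_pos (by omega), dif_pos hk]
  have : (⟨k, by omega⟩ : Fin (n + 1)) = Fin.castSucc ⟨k, hk⟩ := rfl
  rw [this, Fin.snoc_castSucc]

theorem ext_self {n : ℕ} (ω : Par n) (p : Fin (n + 1)) : ext (snc ω p) n = p := by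
  unfold ext snc
  rw [dif_pos (by omega)]
  have : (⟨n, by omega⟩ : Fin (n + 1)) = Fin.last n := rfl
  rw [this, Fin.snoc_last]

theorem D_congr (f g : ℕ → ℕ) (i n : ℕ) (h : ∀ k < n, f k = g k) : D f i n = D g i n := by
  induction n with
  | zero => rfl
  | succ n ih =>
    unfold D
    rw [ih fun k hk => h k (by omega), h n (by omega)]

theorem D_le (f : ℕ → ℕ) (i n : ℕ) : ∀ a ∈ D f i n, a ≤ n := by
  induction n with
  | zero =>
    intro a ha
    unfold D at ha
    split_ifs at ha
    · rw [mem_singleton] at ha; omega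
    · simp at ha
  | succ n ih =>
    intro a ha
    unfold D at ha
    split_ifs at ha
    · rcases mem_insert.1 ha with h | h
      · omega
      · have := ih a h; omega
    · have := ih a ha; omega

theorem D_empty (f : ℕ → ℕ) (i n : ℕ) (h : n < i) : D f i n = ∅ := by
  induction n with
  | zero => unfold D; rw [if_neg (by omega)]
  | succ n ih =>
    unfold D
    rw [ih (by omega), if_neg]
    rintro (h1 | h1)
    · omega
    · simp at h1

theorem D_self (f : ℕ → ℕ) (i : ℕ) : D f i i = {i} := by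
  cases i with
  | zero => unfold D; rw [if_pos rfl]
  | succ i =>
    unfold D
    rw [if_pos (Or.inl rfl), D_empty f (i + 1) i (by omega)]
    rfl

theorem D_disj (f : ℕ → ℕ) (i j n : ℕ) (hij : i < j) (hjn : j ≤ n) (h : j ∉ D f i n) :
    Disjoint (D f i n) (D f j n) := by
  induction n, hjn using Nat.le_induction with
  | base =>
    rw [D_self]
    exact disjoint_singleton_right.2 h
  | succ n hn ih =>
    have h1 : j ∉ D f i n := by
      intro h2
      apply h
      unfold D
      split_ifs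
      · exact mem_insert_of_mem h2
      · exact h2
    have ih := ih h1
    have hi : i ≠ n + 1 := by omega
    have hj : j ≠ n + 1 := by omega
    unfold D
    simp only [hi, hj, false_or]
    have hn1 : ∀ k, n + 1 ∉ D f k n := fun k hk => by have := D_le f k n _ hk; omega
    by_cases ha : f n ∈ D f i n
    · have hb : f n ∉ D f j n := disjoint_left.1 ih ha
      rw [if_pos ha, if_neg hb]
      exact disjoint_insert_left.2 ⟨hn1 j, ih⟩
    · rw [if_neg ha]
      split_ifs
      · exact disjoint_insert_right.2 ⟨hn1 i, ih⟩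
      · exact ih

/-- effect of one step on the set of descendants -/
theorem D_snc {n : ℕ} (ω : Par n) (p : Fin (n + 1)) (i : ℕ) (hi : i ≤ n) :
    D (ext (snc ω p)) i (n + 1) =
      if (p : ℕ) ∈ D (ext ω) i n then insert (n + 1) (D (ext ω) i n) else D (ext ω) i n := by
  rw [D, D_congr (ext (snc ω p)) (ext ω) i n (fun k hk => ext_lt ω p k hk), ext_self]
  have : ¬ i = n + 1 := by omega
  simp only [this, false_or]

theorem S_snc {n : ℕ} (ω : Par n) (p : Fin (n + 1)) (i : ℕ) (hi : i ≤ n) :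
    S (snc ω p) i = if (p : ℕ) ∈ D (ext ω) i n then S ω i + 1 else S ω i := by
  unfold S
  rw [D_snc ω p i hi]
  split_ifs
  · rw [card_insert_of_notMem]
    intro h
    have := D_le _ _ _ _ h
    omega
  · rfl

theorem mem_snc {n : ℕ} (ω : Par n) (p : Fin (n + 1)) (i j : ℕ) (hi : i ≤ n) (hj : j ≤ n) :
    j ∈ D (ext (snc ω p)) i (n + 1) ↔ j ∈ D (ext ω) i n := by
  rw [D_snc ω p i hi]
  split_ifs
  · rw [mem_insert]
    constructor
    · rintro (h | h)
      · omega
      · exact h
    · exact Or.inr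
  · rfl

/-- number of choices leading to a set of vertices -/
theorem count (n : ℕ) (A : Finset ℕ) (hA : ∀ a ∈ A, a ≤ n) :
    (univ.filter fun p : Fin (n + 1) => (p : ℕ) ∈ A).card = A.card := by
  apply card_bij (fun (p : Fin (n + 1)) _ => (p : ℕ))
  · intro p hp
    exact (mem_filter.1 hp).2
  · intro p _ p' _ h
    exact Fin.ext h
  · intro a ha
    have := hA a ha
    exact ⟨⟨a, by omega⟩, mem_filter.2 ⟨mem_univ _, ha⟩, rfl⟩

theorem S_le {n : ℕ} (ω : Par n) (i : ℕ) : S ω i ≤ n + 1 := by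
  unfold S
  rw [← count n _ (D_le _ _ _)]
  exact (card_filter_le _ _).trans (by simp)

theorem sum_count (n : ℕ) (A : Finset ℕ) (hA : ∀ a ∈ A, a ≤ n) (x y : ℝ) :
    ∑ p : Fin (n + 1), (if (p : ℕ) ∈ A then x else y) =
      A.card * x + ((n : ℝ) + 1 - A.card) * y := by
  have h : ∀ p : Fin (n + 1), (if (p : ℕ) ∈ A then x else y) =
      y + (if (p : ℕ) ∈ A then (x - y) else 0) := by
    intro p; split_ifs <;> ring
  rw [Finset.sum_congr rfl fun p _ => h p, sum_add_distrib, ← sum_filter, sum_const, sum_const,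
    count n A hA, card_univ, Fintype.card_fin, nsmul_eq_mul, nsmul_eq_mul]
  push_cast
  ring

/-- the urn function -/
noncomputable def G (s : ℕ) : ℕ → ℕ → ℕ → ℝ
  | 0, _, a => if s < a then 1 else 0
  | k + 1, t, a => (a / ((t : ℝ) + 1)) * G s k (t + 1) (a + 1) +
      (1 - a / ((t : ℝ) + 1)) * G s k (t + 1) a

theorem frac (t a : ℕ) (h : a ≤ t + 1) : 0 ≤ (a : ℝ) / ((t : ℝ) + 1) ∧
    (a : ℝ) / ((t : ℝ) + 1) ≤ 1 := by
  constructor
  · positivity
  · rw [div_le_one (by positivity)]
    exact_mod_cast h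

theorem G_mem (s k : ℕ) : ∀ t a, a ≤ t + 1 → 0 ≤ G s k t a ∧ G s k t a ≤ 1 := by
  induction k with
  | zero =>
    intro t a _
    unfold G
    split_ifs <;> norm_num
  | succ k ih =>
    intro t a h
    obtain ⟨h1, h2⟩ := frac t a h
    obtain ⟨h3, h4⟩ := ih (t + 1) (a + 1) (by omega)
    obtain ⟨h5, h6⟩ := ih (t + 1) a (by omega)
    unfold G
    generalize (a : ℝ) / ((t : ℝ) + 1) = α at h1 h2 ⊢
    constructor
    · have := mul_nonneg h1 h3
      have := mul_nonneg (sub_nonneg.2 h2) h5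
      linarith
    · nlinarith

theorem G_mono (s k : ℕ) : ∀ t a, a ≤ t → G s k t a ≤ G s k t (a + 1) := by
  induction k with
  | zero =>
    intro t a _
    unfold G
    split_ifs <;> first | omega | norm_num
  | succ k ih =>
    intro t a h
    obtain ⟨h1, h2⟩ := frac t a (by omega)
    obtain ⟨h3, h4⟩ := frac t (a + 1) (by omega)
    have h5 := ih (t + 1) a (by omega)
    have h6 := ih (t + 1) (a + 1) (by omega)
    unfold G
    generalize (a : ℝ) / ((t : ℝ) + 1) = α at h1 h2 ⊢
    generalize ((a + 1 : ℕ) : ℝ) / ((t : ℝ) + 1) = β at h3 h4 ⊢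
    nlinarith

theorem ind_eq {n : ℕ} (s i : ℕ) (ω : Par n) : ind s i ω = G s 0 n (S ω i) := rfl

theorem En_step (s k i m : ℕ) (hi : i ≤ m) :
    En (fun ω : Par (m + 1) => G s k (m + 1) (S ω i)) =
      En (fun ω : Par m => G s (k + 1) m (S ω i)) := by
  rw [En_rec]
  congr 1
  funext ω
  have h : ∀ p : Fin (m + 1), G s k (m + 1) (S (snc ω p) i) =
      if (p : ℕ) ∈ D (ext ω) i m then G s k (m + 1) (S ω i + 1) else G s k (m + 1) (S ω i) := by
    intro p
    rw [S_snc ω p i hi]
    split_ifs <;> rfl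
  rw [Finset.sum_congr rfl fun p _ => h p, sum_count m _ (D_le _ _ _)]
  have e : G s (k + 1) m (S ω i) = (S ω i / ((m : ℝ) + 1)) * G s k (m + 1) (S ω i + 1) +
      (1 - S ω i / ((m : ℝ) + 1)) * G s k (m + 1) (S ω i) := rfl
  rw [e]
  have e2 : ((D (ext ω) i m).card : ℝ) = (S ω i : ℝ) := rfl
  rw [e2]
  have : (m : ℝ) + 1 ≠ 0 := by positivity
  field_simp

theorem En_steps (s i j : ℕ) (hij : i ≤ j) (r : ℕ) : ∀ k,
    En (fun ω : Par (j + r) => G s k (j + r) (S ω i)) =
      En (fun ω : Par j => G s (k + r) j (S ω i)) := by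
  induction r with
  | zero => intro k; rfl
  | succ r ih =>
    intro k
    have h1 := En_step s k i (j + r) (by omega)
    have h2 := ih (k + 1)
    have e : k + 1 + r = k + (r + 1) := by omega
    rw [e] at h2
    exact h1.trans h2

open Classical in
/-- indicator of `j` not below `i` -/
noncomputable def hJ {n : ℕ} (i j : ℕ) (ω : Par n) : ℝ := if j ∈ D (ext ω) i n then 0 else 1

theorem Psi_step (s k i j m : ℕ) (hij : i < j) (hj : j ≤ m) :
    En (fun ω : Par (m + 1) => hJ i j ω * (G s k (m + 1) (S ω i) * G s k (m + 1) (S ω j))) ≤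
      En (fun ω : Par m => hJ i j ω * (G s (k + 1) m (S ω i) * G s (k + 1) m (S ω j))) := by
  classical
  rw [En_rec]
  apply En_mono
  intro ω
  have hh : ∀ p : Fin (m + 1), hJ i j (snc ω p) = hJ i j ω := by
    intro p
    unfold hJ
    simp only [mem_snc ω p i j (by omega) hj]
  simp only [hh]
  rw [← Finset.mul_sum, mul_div_assoc]
  by_cases hJ0 : j ∈ D (ext ω) i m
  · have : hJ i j ω = 0 := if_pos hJ0
    rw [this, zero_mul, zero_mul]
  · have : hJ i j ω = 1 := if_neg hJ0
    rw [this, one_mul, one_mul]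
    have hd := D_disj (ext ω) i j m hij hj hJ0
    have hab : S ω i + S ω j ≤ m + 1 := by
      unfold S
      rw [← card_union_of_disjoint hd, ← count m (D (ext ω) i m ∪ D (ext ω) j m)]
      · exact (card_filter_le _ _).trans (by simp)
      · intro a ha
        rcases mem_union.1 ha with h | h
        · exact D_le _ _ _ _ h
        · exact D_le _ _ _ _ h
    obtain ⟨a, ha⟩ : ∃ a, a = S ω i := ⟨_, rfl⟩
    obtain ⟨b, hb⟩ : ∃ b, b = S ω j := ⟨_, rfl⟩
    have hA : ((D (ext ω) i m).card : ℝ) = (a : ℝ) := by rw [ha]; rfl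
    have hB : ((D (ext ω) j m).card : ℝ) = (b : ℝ) := by rw [hb]; rfl
    rw [← ha, ← hb] at hab ⊢
    have hG := G_mono s k (m + 1) a (by omega)
    have hH := G_mono s k (m + 1) b (by omega)
    have eG : G s (k + 1) m a = (a / ((m : ℝ) + 1)) * G s k (m + 1) (a + 1) +
      (1 - a / ((m : ℝ) + 1)) * G s k (m + 1) a := rfl
    have eH : G s (k + 1) m b = (b / ((m : ℝ) + 1)) * G s k (m + 1) (b + 1) +
      (1 - b / ((m : ℝ) + 1)) * G s k (m + 1) b := rfl
    have h : ∀ p : Fin (m + 1), G s k (m + 1) (S (snc ω p) i) * G s k (m + 1) (S (snc ω p) j) =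
        G s k (m + 1) a * G s k (m + 1) b +
        (if (p : ℕ) ∈ D (ext ω) i m then
          (G s k (m + 1) (a + 1) - G s k (m + 1) a) * G s k (m + 1) b else 0) +
        (if (p : ℕ) ∈ D (ext ω) j m then
          G s k (m + 1) a * (G s k (m + 1) (b + 1) - G s k (m + 1) b) else 0) := by
      intro p
      rw [S_snc ω p i (by omega), S_snc ω p j hj, ← ha, ← hb]
      by_cases h1 : (p : ℕ) ∈ D (ext ω) i m
      · have h2 : (p : ℕ) ∉ D (ext ω) j m := disjoint_left.1 hd h1
        rw [if_pos h1, if_neg h2, if_pos h1, if_neg h2]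
        ring
      · rw [if_neg h1, if_neg h1]
        by_cases h2 : (p : ℕ) ∈ D (ext ω) j m
        · rw [if_pos h2, if_pos h2]; ring
        · rw [if_neg h2, if_neg h2]; ring
    rw [Finset.sum_congr rfl fun p _ => h p, sum_add_distrib, sum_add_distrib,
      sum_count m _ (D_le _ _ _), sum_count m _ (D_le _ _ _), sum_const, card_univ,
      Fintype.card_fin, nsmul_eq_mul, hA, hB, eG, eH]
    generalize G s k (m + 1) a = g at *
    generalize G s k (m + 1) (a + 1) = g' at *
    generalize G s k (m + 1) b = h0 at *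
    generalize G s k (m + 1) (b + 1) = h' at *
    have hm : (0 : ℝ) < (m : ℝ) + 1 := by positivity
    have hfin : 0 ≤ (a / ((m : ℝ) + 1)) * (b / ((m : ℝ) + 1)) * ((g' - g) * (h' - h0)) :=
      mul_nonneg (by positivity) (mul_nonneg (sub_nonneg.2 hG) (sub_nonneg.2 hH))
    have e : ((a / ((m : ℝ) + 1)) * g' + (1 - a / ((m : ℝ) + 1)) * g) *
        ((b / ((m : ℝ) + 1)) * h' + (1 - b / ((m : ℝ) + 1)) * h0) -
        (((m + 1 : ℕ) : ℝ) * (g * h0) + (a * ((g' - g) * h0) + ((m : ℝ) + 1 - a) * 0) +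
          (b * (g * (h' - h0)) + ((m : ℝ) + 1 - b) * 0)) / ((m : ℝ) + 1) =
        (a / ((m : ℝ) + 1)) * (b / ((m : ℝ) + 1)) * ((g' - g) * (h' - h0)) := by
      push_cast
      field_simp
      ring
    linarith

theorem Psi_steps (s i j : ℕ) (hij : i < j) (r : ℕ) : ∀ k,
    En (fun ω : Par (j + r) => hJ i j ω * (G s k (j + r) (S ω i) * G s k (j + r) (S ω j))) ≤
      En (fun ω : Par j => hJ i j ω * (G s (k + r) j (S ω i) * G s (k + r) j (S ω j))) := by
  induction r with
  | zero => intro k; exact le_rfl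
  | succ r ih =>
    intro k
    have h1 := Psi_step s k i j (j + r) hij (by omega)
    have h2 := ih (k + 1)
    have e : k + 1 + r = k + (r + 1) := by omega
    rw [e] at h2
    exact h1.trans h2

theorem hJ_step (i j m : ℕ) (hij : i < j) (hj : j ≤ m) :
    En (fun ω : Par (m + 1) => 1 - hJ i j ω) = En (fun ω : Par m => 1 - hJ i j ω) := by
  classical
  rw [En_rec]
  congr 1
  funext ω
  have hh : ∀ p : Fin (m + 1), hJ i j (snc ω p) = hJ i j ω := by
    intro p
    unfold hJ
    simp only [mem_snc ω p i j (by omega) hj]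
  simp only [hh]
  rw [sum_const, card_univ, Fintype.card_fin, nsmul_eq_mul]
  push_cast
  field_simp

theorem hJ_steps (i j : ℕ) (hij : i < j) (r : ℕ) :
    En (fun ω : Par (j + r) => 1 - hJ i j ω) = En (fun ω : Par j => 1 - hJ i j ω) := by
  induction r with
  | zero => rfl
  | succ r ih => exact (hJ_step i j (j + r) hij (by omega)).trans ih

theorem mean_S (i r : ℕ) : En (fun ω : Par (i + r) => (S ω i : ℝ)) =
    (((i + r : ℕ) : ℝ) + 1) / ((i : ℝ) + 1) := by
  induction r with
  | zero =>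
    have : ∀ ω : Par (i + 0), (S ω i : ℝ) = 1 := by
      intro ω
      change ((D (ext ω) i i).card : ℝ) = 1
      rw [D_self, card_singleton, Nat.cast_one]
    simp only [this]
    rw [En_const, Nat.add_zero, div_self (by positivity)]
  | succ r ih =>
    change En (fun ω : Par ((i + r) + 1) => (S ω i : ℝ)) = _
    rw [En_rec]
    have h : ∀ ω : Par (i + r), (∑ p : Fin (i + r + 1), (S (snc ω p) i : ℝ)) /
        (((i + r : ℕ) : ℝ) + 1) = (((i + r : ℕ) : ℝ) + 2) / (((i + r : ℕ) : ℝ) + 1) * (S ω i : ℝ) := by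
      intro ω
      have h1 : ∀ p : Fin (i + r + 1), (S (snc ω p) i : ℝ) =
          if (p : ℕ) ∈ D (ext ω) i (i + r) then (S ω i : ℝ) + 1 else (S ω i : ℝ) := by
        intro p
        rw [S_snc ω p i (by omega)]
        split_ifs <;> push_cast <;> rfl
      rw [Finset.sum_congr rfl fun p _ => h1 p, sum_count _ _ (D_le _ _ _)]
      have e2 : ((D (ext ω) i (i + r)).card : ℝ) = (S ω i : ℝ) := rfl
      rw [e2]
      field_simp
      ring
    rw [show (fun ω : Par (i + r) => (∑ p : Fin (i + r + 1), (S (snc ω p) i : ℝ)) /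
        (((i + r : ℕ) : ℝ) + 1)) = fun ω => (((i + r : ℕ) : ℝ) + 2) / (((i + r : ℕ) : ℝ) + 1) *
          (S ω i : ℝ) from funext h, En_mul, ih]
    push_cast
    field_simp
    ring

theorem hJ_base (i j : ℕ) (hij : i < j) :
    En (fun ω : Par j => 1 - hJ i j ω) = 1 / ((i : ℝ) + 1) := by
  classical
  obtain ⟨r, rfl⟩ : ∃ r, j = i + r + 1 := ⟨j - i - 1, by omega⟩
  rw [En_rec]
  have h : ∀ ω : Par (i + r), (∑ p : Fin (i + r + 1), (1 - hJ i (i + r + 1) (snc ω p))) /
      (((i + r : ℕ) : ℝ) + 1) = (1 / (((i + r : ℕ) : ℝ) + 1)) * (S ω i : ℝ) := by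
    intro ω
    have h1 : ∀ p : Fin (i + r + 1), 1 - hJ i (i + r + 1) (snc ω p) =
        if (p : ℕ) ∈ D (ext ω) i (i + r) then 1 else 0 := by
      intro p
      unfold hJ
      rw [D_snc ω p i (by omega)]
      by_cases hp : (p : ℕ) ∈ D (ext ω) i (i + r)
      · rw [if_pos hp, if_pos (mem_insert_self _ _), if_pos hp]; ring
      · rw [if_neg hp, if_neg hp, if_neg]
        · ring
        · intro hm
          have := D_le _ _ _ _ hm
          omega
    rw [Finset.sum_congr rfl fun p _ => h1 p, sum_count _ _ (D_le _ _ _)]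
    have e2 : ((D (ext ω) i (i + r)).card : ℝ) = (S ω i : ℝ) := rfl
    rw [e2]
    ring
  rw [show (fun ω : Par (i + r) => (∑ p : Fin (i + r + 1), (1 - hJ i (i + r + 1) (snc ω p))) /
      (((i + r : ℕ) : ℝ) + 1)) = fun ω => (1 / (((i + r : ℕ) : ℝ) + 1)) * (S ω i : ℝ) from
      funext h, En_mul, mean_S]
  field_simp

end Cov

open Cov

theorem cov : CovStmt := by
  classical
  intro n s i j _ hij hjn
  obtain ⟨r, rfl⟩ := Nat.exists_eq_add_of_le hjn
  have hind : ∀ (k : ℕ) (ω : Par (j + r)), 0 ≤ ind s k ω ∧ ind s k ω ≤ 1 := by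
    intro k ω
    unfold ind
    split_ifs <;> norm_num
  have hh : ∀ ω : Par (j + r), 0 ≤ 1 - hJ i j ω := by
    intro ω
    unfold hJ
    split_ifs <;> norm_num
  have h1 : En (fun ω : Par (j + r) => ind s i ω * ind s j ω) ≤
      En (fun ω : Par (j + r) => hJ i j ω * (ind s i ω * ind s j ω)) +
      En (fun ω : Par (j + r) => 1 - hJ i j ω) := by
    rw [← En_add]
    apply En_mono
    intro ω
    obtain ⟨h2, h3⟩ := hind i ω
    obtain ⟨h4, h5⟩ := hind j ω
    have h6 : ind s i ω * ind s j ω ≤ 1 := mul_le_one₀ h3 h4 h5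
    have h7 := mul_nonneg (hh ω) (sub_nonneg.2 h6)
    linarith
  have h2 : En (fun ω : Par (j + r) => 1 - hJ i j ω) = 1 / ((i : ℝ) + 1) :=
    (hJ_steps i j hij r).trans (hJ_base i j hij)
  have h3 := Psi_steps s i j hij r 0
  have h4 : En (fun ω : Par (j + r) => ind s i ω) = En (fun ω : Par j => G s (0 + r) j (S ω i)) :=
    En_steps s i j hij.le r 0
  have h5 : En (fun ω : Par (j + r) => ind s j ω) = En (fun ω : Par j => G s (0 + r) j (S ω j)) :=
    En_steps s j j le_rfl r 0
  have hSj : ∀ ω : Par j, S ω j = 1 := by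
    intro ω
    unfold S
    rw [D_self, card_singleton]
  simp only [hSj, En_const] at h5
  have h6 : En (fun ω : Par j => hJ i j ω * (G s (0 + r) j (S ω i) * G s (0 + r) j (S ω j))) ≤
      En (fun ω : Par (j + r) => ind s i ω) * En (fun ω : Par (j + r) => ind s j ω) := by
    rw [h4, h5, mul_comm, ← En_mul]
    apply En_mono
    intro ω
    rw [hSj]
    have h7 := (G_mem s (0 + r) j (S ω i) (S_le ω i)).1
    have h8 := (G_mem s (0 + r) j 1 (by omega)).1
    have h9 : hJ i j ω ≤ 1 := by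
      unfold hJ
      split_ifs <;> norm_num
    have h10 := mul_nonneg h8 h7
    have h11 := mul_nonneg (sub_nonneg.2 h9) h10
    linarith
  rw [h2] at h1
  have h12 : En (fun ω : Par (j + r) => hJ i j ω * (ind s i ω * ind s j ω)) ≤
      En (fun ω : Par (j + r) => ind s i ω) * En (fun ω : Par (j + r) => ind s j ω) := h3.trans h6
  linarith

end Pool.Agent.R254.UA
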