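import Pool.Agent.R254.UA.Stm

/-!
# Early vertices among the most central vertices (MP_6a6beb_pr): from the core statement to the
answer of the question
-/

open Finset Filter
open scoped Topology

namespace Pool.Agent.R254.UA

theorem u10_En_mono {n : ℕ} {F G : Par n → ℝ} (h : ∀ ω, F ω ≤ G ω) : En F ≤ En G := by
  unfold En
  exact div_le_div_of_nonneg_right (Finset.sum_le_sum fun ω _ => h ω) (Nat.cast_nonneg _)

theorem u10_En_nonneg {n : ℕ} {F : Par n → ℝ} (h : ∀ ω, 0 ≤ F ω) : 0 ≤ En F := by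
  unfold En
  exact div_nonneg (Finset.sum_nonneg fun ω _ => h ω) (Nat.cast_nonneg _)

theorem u10_probDev_nonneg (n K : ℕ) (c δ : ℝ) : 0 ≤ probDev n K c δ := by
  unfold probDev
  exact u10_En_nonneg fun ω => div_nonneg (Nat.cast_nonneg _) (Nat.cast_nonneg _)

open Classical in
theorem u10_probDev_le (n K : ℕ) (c δ : ℝ) : probDev n K c δ ≤
    En (fun ω : Par n => if ∃ A, IsTop ω ⌈c * K⌉₊ A ∧ Dev K c δ A then (1 : ℝ) else 0) := by
  unfold probDev
  refine u10_En_mono fun ω => ?_
  by_cases h : ∃ A, IsTop ω ⌈c * K⌉₊ A ∧ Dev K c δ A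
  · rw [if_pos h]
    refine div_le_one_of_le₀ ?_ (Nat.cast_nonneg _)
    exact_mod_cast Finset.card_le_card (Finset.filter_subset _ _)
  · rw [if_neg h]
    have h1 : ((univ.filter (IsTop ω ⌈c * K⌉₊)).filter (Dev K c δ)) = ∅ := by
      rw [Finset.filter_eq_empty_iff]
      intro A hA hD
      exact h ⟨A, (Finset.mem_filter.1 hA).2, hD⟩
    rw [h1, Finset.card_empty, Nat.cast_zero, zero_div]

/-- U10: the answer to the question from the core statement. -/
theorem main_of_core (h : CoreStmt) : MainStmt := by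
  intro c hc δ hδ
  rw [Metric.tendsto_atTop]
  intro ε hε
  obtain ⟨K0, hK0⟩ := h c hc δ hδ (ε / 2) (by linarith)
  refine ⟨K0, fun K hK => ?_⟩
  have h3 : ∀ᶠ n : ℕ in atTop, probDev n K c δ ≤ ε / 2 :=
    (hK0 K hK).mono fun n hn => (u10_probDev_le n K c δ).trans hn
  have hcob : IsCoboundedUnder (· ≤ ·) atTop fun n : ℕ => probDev n K c δ :=
    isCoboundedUnder_le_of_le atTop (x := 0) fun n => u10_probDev_nonneg n K c δ
  have hb : IsBoundedUnder (· ≤ ·) atTop fun n : ℕ => probDev n K c δ := ⟨ε / 2, h3⟩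
  have h4 : limsup (fun n : ℕ => probDev n K c δ) atTop ≤ ε / 2 := limsup_le_of_le hcob h3
  have h5 : 0 ≤ limsup (fun n : ℕ => probDev n K c δ) atTop :=
    le_limsup_of_frequently_le (Frequently.of_forall fun n => u10_probDev_nonneg n K c δ) hb
  rw [Real.dist_eq, sub_zero, abs_of_nonneg h5]
  linarith

end Pool.Agent.R254.UA
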