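import Pool.Agent.R254.UA.Stm

/-!
# UA-6: asymptotics of the means
-/

open Finset Filter
open scoped Topology

namespace Pool.Agent.R254.UA

lemma pn_nonneg (n s i : ℕ) : 0 ≤ pn n s i := by
  unfold pn
  positivity

lemma pn_zero (n s : ℕ) : pn n s 0 = 1 := by
  simp [pn]

lemma pn_succ {n i : ℕ} (s : ℕ) (h : i < n) :
    pn n s (i + 1) = pn n s i * (((n - s - i : ℕ) : ℝ) / ((n - i : ℕ) : ℝ)) := by
  unfold pn
  have h1 : ((n.choose i : ℕ) : ℝ) ≠ 0 := by exact_mod_cast (Nat.choose_pos h.le).ne'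
  have h2 : ((n.choose (i + 1) : ℕ) : ℝ) ≠ 0 := by exact_mod_cast (Nat.choose_pos h).ne'
  have h3 : ((n - i : ℕ) : ℝ) ≠ 0 := by
    have : n - i ≠ 0 := by omega
    exact_mod_cast this
  have h4 : ((i : ℝ) + 1) ≠ 0 := by positivity
  have k1 : ((n.choose (i + 1) : ℕ) : ℝ) * ((i : ℝ) + 1) = (n.choose i : ℝ) * ((n - i : ℕ) : ℝ) := by
    exact_mod_cast Nat.choose_succ_right_eq n i
  have k2 : (((n - s).choose (i + 1) : ℕ) : ℝ) * ((i : ℝ) + 1)
      = ((n - s).choose i : ℝ) * ((n - s - i : ℕ) : ℝ) := by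
    exact_mod_cast Nat.choose_succ_right_eq (n - s) i
  rw [div_mul_div_comm, ← k1, ← k2]
  field_simp

lemma ratio_le {n s i : ℕ} (hs : s ≤ n) (h : i < n) :
    ((n - s - i : ℕ) : ℝ) / ((n - i : ℕ) : ℝ) ≤ 1 - (s : ℝ) / n := by
  have h0 : (0 : ℝ) < n := by exact_mod_cast (by omega : 0 < n)
  have h3 : (0 : ℝ) < ((n - i : ℕ) : ℝ) := by
    have : 0 < n - i := by omega
    exact_mod_cast this
  have h5 : (s : ℝ) ≤ n := by exact_mod_cast hs
  rw [div_le_iff₀ h3]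
  rcases le_or_gt i (n - s) with h4 | h4
  · rw [Nat.cast_sub h4, Nat.cast_sub hs, Nat.cast_sub h.le]
    have : (1 - (s : ℝ) / n) * ((n : ℝ) - i) = n - s - i + s * i / n := by
      field_simp
      ring
    rw [this]
    have : (0 : ℝ) ≤ s * i / n := by positivity
    linarith
  · have : n - s - i = 0 := by omega
    rw [this]
    have h6 : (0 : ℝ) ≤ 1 - (s : ℝ) / n := by
      rw [sub_nonneg, div_le_one h0]
      exact h5
    push_cast
    positivity

lemma pn_le {n s : ℕ} (hs : s ≤ n) : ∀ i : ℕ, i ≤ n → pn n s i ≤ (1 - (s : ℝ) / n) ^ i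
  | 0, _ => by rw [pn_zero]; simp
  | i + 1, h => by
    rw [pn_succ s (by omega), pow_succ]
    exact mul_le_mul (pn_le hs i (by omega)) (ratio_le hs (by omega)) (by positivity)
      (le_trans (pn_nonneg _ _ _) (pn_le hs i (by omega)))

lemma sum_pn_le {n s m : ℕ} (hs : s ≤ n) (h1 : 1 ≤ s) (hm : m ≤ n + 1) :
    ∑ i ∈ Ico m (n + 1), pn n s i ≤ (1 - (s : ℝ) / n) ^ m / ((s : ℝ) / n) := by
  have h0 : (0 : ℝ) < n := by exact_mod_cast (by omega : 0 < n)
  have hs0 : (0 : ℝ) < s := by exact_mod_cast h1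
  have h5 : (s : ℝ) ≤ n := by exact_mod_cast hs
  have hq : (0 : ℝ) ≤ 1 - (s : ℝ) / n := by
    rw [sub_nonneg, div_le_one h0]
    exact h5
  have hq1 : (0 : ℝ) < (s : ℝ) / n := by positivity
  calc ∑ i ∈ Ico m (n + 1), pn n s i ≤ ∑ i ∈ Ico m (n + 1), (1 - (s : ℝ) / n) ^ i := by
        refine sum_le_sum fun i hi => pn_le hs i ?_
        have := (mem_Ico.1 hi).2
        omega
    _ = ((1 - (s : ℝ) / n) ^ m - (1 - (s : ℝ) / n) ^ (n + 1)) / (1 - (1 - (s : ℝ) / n)) := by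
        rw [geom_sum_Ico' (by linarith) hm]
    _ ≤ (1 - (s : ℝ) / n) ^ m / ((s : ℝ) / n) := by
        rw [show 1 - (1 - (s : ℝ) / n) = (s : ℝ) / n by ring]
        refine div_le_div_of_nonneg_right ?_ hq1.le
        have : (0 : ℝ) ≤ (1 - (s : ℝ) / n) ^ (n + 1) := by positivity
        linarith

lemma tendsto_floor (x : ℝ) (hx : 0 ≤ x) :
    Tendsto (fun n : ℕ => ((⌊x * n⌋₊ : ℕ) : ℝ) / n) atTop (𝓝 x) := by
  have := (tendsto_nat_floor_mul_div_atTop (R := ℝ) hx).comp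
    (tendsto_natCast_atTop_atTop (R := ℝ))
  exact this

lemma floor_le {x : ℝ} (hx1 : x < 1) (n : ℕ) : ⌊x * n⌋₊ ≤ n := by
  refine Nat.floor_le_of_le ?_
  have : (0 : ℝ) ≤ n := Nat.cast_nonneg n
  nlinarith

lemma tendsto_ratio {x : ℝ} (hx : 0 < x) (hx1 : x < 1) (i : ℕ) :
    Tendsto (fun n : ℕ => ((n - ⌊x * n⌋₊ - i : ℕ) : ℝ) / ((n - i : ℕ) : ℝ)) atTop
      (𝓝 (1 - x)) := by
  have h1 : Tendsto (fun n : ℕ => (1 - ((⌊x * n⌋₊ : ℕ) : ℝ) / n - (i : ℝ) / n)
      / (1 - (i : ℝ) / n)) atTop (𝓝 ((1 - x - 0) / (1 - 0))) := by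
    refine Tendsto.div ((tendsto_const_nhds.sub (tendsto_floor x hx.le)).sub
      (tendsto_const_div_atTop_nhds_zero_nat (i : ℝ)))
      (tendsto_const_nhds.sub (tendsto_const_div_atTop_nhds_zero_nat (i : ℝ))) (by norm_num)
  have h2 : (1 - x - 0) / (1 - 0) = 1 - x := by ring
  rw [h2] at h1
  refine h1.congr' ?_
  have h3 : Tendsto (fun n : ℕ => (1 - x) * (n : ℝ)) atTop atTop :=
    (tendsto_natCast_atTop_atTop (R := ℝ)).const_mul_atTop (by linarith)
  filter_upwards [eventually_gt_atTop i, h3.eventually_ge_atTop (i : ℝ)] with n hn hn2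
  have h0 : (0 : ℝ) < n := by exact_mod_cast (by omega : 0 < n)
  have h4 : ((⌊x * n⌋₊ : ℕ) : ℝ) ≤ x * n := Nat.floor_le (by positivity)
  have h5 : ((⌊x * n⌋₊ : ℕ) : ℝ) + i ≤ n := by nlinarith
  have h6 : ⌊x * n⌋₊ + i ≤ n := by exact_mod_cast h5
  have h7 : (i : ℝ) < n := by exact_mod_cast hn
  rw [Nat.cast_sub (by omega), Nat.cast_sub (by omega), Nat.cast_sub hn.le]
  have h8 : (n : ℝ) - i ≠ 0 := by linarith
  have h9 : 1 - (i : ℝ) / n ≠ 0 := by
    have : 1 - (i : ℝ) / n = (n - i) / n := by field_simp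
    rw [this]
    exact div_ne_zero h8 h0.ne'
  rw [div_eq_div_iff h9 h8]
  field_simp

lemma tendsto_pn {x : ℝ} (hx : 0 < x) (hx1 : x < 1) :
    ∀ i : ℕ, Tendsto (fun n : ℕ => pn n ⌊x * n⌋₊ i) atTop (𝓝 ((1 - x) ^ i))
  | 0 => by
    simp only [pn_zero, pow_zero]
    exact tendsto_const_nhds
  | i + 1 => by
    rw [pow_succ]
    refine ((tendsto_pn hx hx1 i).mul (tendsto_ratio hx hx1 i)).congr' ?_
    filter_upwards [eventually_gt_atTop i] with n hn
    rw [pn_succ _ hn]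

/-- U6: asymptotics of the means. -/
theorem mean : MeanStmt := by
  refine ⟨?_, ?_, ?_⟩
  · intro x hx hx1 m
    have h1 : (1 - (1 - x) ^ m) / x = ∑ i ∈ range m, (1 - x) ^ i := by
      rw [geom_sum_eq (by linarith)]
      rw [show (1 - x - 1) = -x by ring, div_neg, ← neg_div]
      congr 1
      ring
    rw [h1]
    exact tendsto_finsetSum _ fun i _ => tendsto_pn hx hx1 i
  · intro x hx hx1 m
    have h1 : Tendsto (fun n : ℕ => (1 - ((⌊x * n⌋₊ : ℕ) : ℝ) / n) ^ m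
        / (((⌊x * n⌋₊ : ℕ) : ℝ) / n)) atTop (𝓝 ((1 - x) ^ m / x)) :=
      ((tendsto_const_nhds.sub (tendsto_floor x hx.le)).pow m).div (tendsto_floor x hx.le) hx.ne'
    have h2 := h1.eventually_le_const (by linarith : (1 - x) ^ m / x < (1 - x) ^ m / x + 1)
    have h3 : Tendsto (fun n : ℕ => x * (n : ℝ)) atTop atTop :=
      (tendsto_natCast_atTop_atTop (R := ℝ)).const_mul_atTop hx
    filter_upwards [h2, eventually_gt_atTop m, h3.eventually_ge_atTop (1 : ℝ)] with n hn hm hn1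
    refine le_trans (sum_pn_le (floor_le hx1 n) ?_ (by omega)) hn
    exact Nat.le_floor (by exact_mod_cast hn1)
  · intro n
    rcases Nat.eq_zero_or_pos n with h | h
    · subst h
      simp [pn]
    · have hs : (n + 1) / 2 ≤ n := by omega
      have hs1 : 1 ≤ (n + 1) / 2 := by omega
      have h1 := sum_pn_le (m := 0) hs hs1 (by omega)
      rw [← range_eq_Ico, pow_zero] at h1
      refine h1.trans ?_
      have h0 : (0 : ℝ) < n := by exact_mod_cast h
      have h2 : (n : ℝ) ≤ 2 * (((n + 1) / 2 : ℕ) : ℝ) := by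
        exact_mod_cast (by omega : n ≤ 2 * ((n + 1) / 2))
      have h3 : (1 : ℝ) / 2 ≤ (((n + 1) / 2 : ℕ) : ℝ) / n := by
        rw [div_le_div_iff₀ (by norm_num) h0]
        linarith
      rw [div_le_iff₀ (by linarith)]
      linarith

end Pool.Agent.R254.UA
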