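import Pool.Agent.R254.UA.Stm

/-!
# UA-3: the recursion for averages over attachment choices, and the law of subtree sizes
-/

open Finset Filter
open scoped Topology

namespace Pool.Agent.R254.UA

/-- Add one attachment choice. -/
def snoc {n : ℕ} (ω : Par n) (p : Fin (n + 1)) : Par (n + 1) :=
  Fin.snoc (α := fun k : Fin (n + 1) => Fin ((k : ℕ) + 1)) ω p

lemma snoc_castSucc {n : ℕ} (ω : Par n) (p : Fin (n + 1)) (k : Fin n) :
    snoc ω p k.castSucc = ω k := by
  unfold snoc
  exact Fin.snoc_castSucc (α := fun k : Fin (n + 1) => Fin ((k : ℕ) + 1)) p ω k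

lemma snoc_last {n : ℕ} (ω : Par n) (p : Fin (n + 1)) :
    snoc ω p (Fin.last n) = p := by
  unfold snoc
  exact Fin.snoc_last (α := fun k : Fin (n + 1) => Fin ((k : ℕ) + 1)) p ω

lemma ext_snoc_lt {n : ℕ} (ω : Par n) (p : Fin (n + 1)) {k : ℕ} (h : k < n) :
    ext (snoc ω p) k = ext ω k := by
  unfold ext
  rw [dif_pos h, dif_pos (by omega : k < n + 1)]
  have := snoc_castSucc ω p ⟨k, h⟩
  have h2 : (⟨k, by omega⟩ : Fin (n + 1)) = Fin.castSucc ⟨k, h⟩ := rfl
  exact congrArg (fun x : Fin (k + 1) => (x : ℕ)) this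

lemma ext_snoc_self {n : ℕ} (ω : Par n) (p : Fin (n + 1)) :
    ext (snoc ω p) n = p := by
  unfold ext
  rw [dif_pos (by omega : n < n + 1)]
  have := snoc_last ω p
  exact congrArg (fun x : Fin (n + 1) => (x : ℕ)) this

lemma D_congr {f g : ℕ → ℕ} (i : ℕ) : ∀ n : ℕ, (∀ k < n, f k = g k) → D f i n = D g i n
  | 0, _ => rfl
  | n + 1, h => by
    have ih := D_congr i n (fun k hk => h k (by omega))
    simp only [D]
    rw [ih, h n (by omega)]

lemma D_subset (f : ℕ → ℕ) (i : ℕ) : ∀ n : ℕ, D f i n ⊆ range (n + 1)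
  | 0 => by
    simp only [D]
    split_ifs <;> simp
  | n + 1 => by
    have ih := D_subset f i n
    have h2 : D f i n ⊆ range (n + 1 + 1) := ih.trans (range_subset_range.2 (by omega))
    simp only [D]
    split_ifs
    · exact insert_subset (by simp) h2
    · exact h2

lemma D_le {f : ℕ → ℕ} {i n j : ℕ} (h : j ∈ D f i n) : j ≤ n := by
  have := D_subset f i n h
  rw [mem_range] at this
  omega

lemma D_eq_empty (f : ℕ → ℕ) (i : ℕ) : ∀ n : ℕ, n < i → D f i n = ∅
  | 0, h => by
    simp only [D]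
    rw [if_neg (by omega)]
  | n + 1, h => by
    have ih := D_eq_empty f i n (by omega)
    simp only [D]
    rw [ih, if_neg]
    simp
    omega

lemma D_self_eq (f : ℕ → ℕ) : ∀ i : ℕ, D f i i = {i}
  | 0 => by simp [D]
  | i + 1 => by
    simp only [D]
    rw [if_pos (Or.inl trivial), D_eq_empty f (i + 1) i (by omega)]
    rfl

lemma D_mono (f : ℕ → ℕ) (i : ℕ) (n : ℕ) : D f i n ⊆ D f i (n + 1) := by
  simp only [D]
  split_ifs
  · exact subset_insert _ _
  · exact Subset.refl _

lemma self_mem_D (f : ℕ → ℕ) (i : ℕ) (n : ℕ) (h : i ≤ n) : i ∈ D f i n := by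
  induction n, h using Nat.le_induction with
  | base => rw [D_self_eq]; simp
  | succ n _ ih => exact D_mono f i n ih

lemma D_succ_of_le (f : ℕ → ℕ) {i n : ℕ} (h : i ≤ n) :
    D f i (n + 1) = if f n ∈ D f i n then insert (n + 1) (D f i n) else D f i n := by
  have h1 : i ≠ n + 1 := by omega
  simp only [D, h1, false_or]

lemma card_D_succ (f : ℕ → ℕ) {i n : ℕ} (h : i ≤ n) :
    (D f i (n + 1)).card = (D f i n).card + if f n ∈ D f i n then 1 else 0 := by
  rw [D_succ_of_le f h]
  split_ifs
  · rw [card_insert_of_notMem]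
    intro h3
    have := D_le h3
    omega
  · rfl

lemma D_snoc {n : ℕ} (ω : Par n) (p : Fin (n + 1)) (i : ℕ) :
    D (ext (snoc ω p)) i n = D (ext ω) i n :=
  D_congr i n (fun _ hk => ext_snoc_lt ω p hk)

/-- The recursion of the subtree sizes. -/
lemma S_snoc {n : ℕ} (ω : Par n) (p : Fin (n + 1)) {i : ℕ} (h : i ≤ n) :
    S (snoc ω p) i = S ω i + if (p : ℕ) ∈ D (ext ω) i n then 1 else 0 := by
  unfold S
  rw [card_D_succ _ h, D_snoc, ext_snoc_self]

lemma S_last {n : ℕ} (ω : Par n) : S ω n = 1 := by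
  unfold S
  rw [D_self_eq]
  simp

lemma S_eq_zero {n : ℕ} (ω : Par n) {i : ℕ} (h : n < i) : S ω i = 0 := by
  unfold S
  rw [D_eq_empty _ _ _ h]
  simp

lemma S_pos {n : ℕ} (ω : Par n) {i : ℕ} (h : i ≤ n) : 0 < S ω i := by
  unfold S
  exact card_pos.2 ⟨i, self_mem_D _ _ _ h⟩

lemma S_le {n : ℕ} (ω : Par n) (i : ℕ) : S ω i ≤ n + 1 := by
  unfold S
  have := card_le_card (D_subset (ext ω) i n)
  simpa using this

lemma D_zero (f : ℕ → ℕ) (hf : ∀ k, f k ≤ k) : ∀ n : ℕ, D f 0 n = range (n + 1)
  | 0 => by simp [D]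
  | n + 1 => by
    have ih := D_zero f hf n
    rw [D_succ_of_le f (by omega : 0 ≤ n), ih, if_pos]
    · ext x; simp; omega
    · have := hf n
      simp; omega

lemma ext_le {n : ℕ} (ω : Par n) (k : ℕ) : ext ω k ≤ k := by
  unfold ext
  split_ifs with h
  · have := (ω ⟨k, h⟩).2
    simp only at this
    omega
  · omega

lemma S_zero {n : ℕ} (ω : Par n) : S ω 0 = n + 1 := by
  unfold S
  rw [D_zero _ (ext_le ω)]
  simp

/-- The decomposition of the choices. -/
def snocE (n : ℕ) : Par n × Fin (n + 1) ≃ Par (n + 1) where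
  toFun x := snoc x.1 x.2
  invFun ω := (fun k => ω k.castSucc, ω (Fin.last n))
  left_inv x := by
    rcases x with ⟨ω, p⟩
    refine Prod.ext ?_ ?_
    · funext k
      exact snoc_castSucc ω p k
    · exact snoc_last ω p
  right_inv ω := by
    funext k
    refine Fin.lastCases ?_ (fun k => ?_) k
    · exact snoc_last _ _
    · exact snoc_castSucc _ _ k

lemma card_Par_succ (n : ℕ) :
    Fintype.card (Par (n + 1)) = Fintype.card (Par n) * (n + 1) := by
  rw [← Fintype.card_congr (snocE n), Fintype.card_prod, Fintype.card_fin]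

lemma card_Par_pos (n : ℕ) : 0 < Fintype.card (Par n) := by
  refine Fintype.card_pos_iff.2 ⟨fun k => 0⟩

/-- The recursion for averages. -/
theorem En_succ {n : ℕ} (F : Par (n + 1) → ℝ) :
    En F = En (fun ω : Par n => (∑ p : Fin (n + 1), F (snoc ω p)) / ((n : ℝ) + 1)) := by
  unfold En
  rw [card_Par_succ]
  have h1 : ∑ ω : Par (n + 1), F ω = ∑ ω : Par n, ∑ p : Fin (n + 1), F (snoc ω p) := by
    rw [← (snocE n).sum_comp, Fintype.sum_prod_type]
    rfl
  rw [h1, ← Finset.sum_div]
  push_cast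
  have h2 : (0 : ℝ) < Fintype.card (Par n) := by exact_mod_cast card_Par_pos n
  rw [div_div]
  congr 1
  ring

lemma En_const {n : ℕ} (c : ℝ) : En (fun _ : Par n => c) = c := by
  unfold En
  have h2 : (0 : ℝ) < Fintype.card (Par n) := by exact_mod_cast card_Par_pos n
  rw [sum_const, card_univ, nsmul_eq_mul]
  field_simp

lemma En_add {n : ℕ} (F G : Par n → ℝ) : En (fun ω => F ω + G ω) = En F + En G := by
  unfold En
  rw [sum_add_distrib, add_div]

lemma En_sub {n : ℕ} (F G : Par n → ℝ) : En (fun ω => F ω - G ω) = En F - En G := by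
  unfold En
  rw [sum_sub_distrib, sub_div]

lemma En_mul_left {n : ℕ} (c : ℝ) (F : Par n → ℝ) : En (fun ω => c * F ω) = c * En F := by
  unfold En
  rw [← mul_sum, mul_div_assoc]

lemma En_sum {n : ℕ} {ι : Type*} (s : Finset ι) (F : ι → Par n → ℝ) :
    En (fun ω => ∑ i ∈ s, F i ω) = ∑ i ∈ s, En (F i) := by
  unfold En
  rw [sum_comm, sum_div]

lemma En_mono {n : ℕ} {F G : Par n → ℝ} (h : ∀ ω, F ω ≤ G ω) : En F ≤ En G := by
  unfold En
  exact div_le_div_of_nonneg_right (sum_le_sum fun ω _ => h ω) (Nat.cast_nonneg _)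

lemma En_nonneg {n : ℕ} {F : Par n → ℝ} (h : ∀ ω, 0 ≤ F ω) : 0 ≤ En F := by
  unfold En
  exact div_nonneg (sum_nonneg fun ω _ => h ω) (Nat.cast_nonneg _)

lemma En_congr {n : ℕ} {F G : Par n → ℝ} (h : ∀ ω, F ω = G ω) : En F = En G :=
  congrArg En (funext h)

/-- Number of choices of the parent inside the subtree. -/
lemma card_mem_D {n : ℕ} (ω : Par n) (i : ℕ) :
    (univ.filter (fun p : Fin (n + 1) => (p : ℕ) ∈ D (ext ω) i n)).card = S ω i := by
  unfold S
  refine card_bij (fun p _ => (p : ℕ)) ?_ ?_ ?_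
  · intro p hp
    exact (mem_filter.1 hp).2
  · intro p _ q _ h
    exact Fin.ext h
  · intro j hj
    have := D_le hj
    exact ⟨⟨j, by omega⟩, by simpa using hj, rfl⟩

/-- Average of the indicator over the last choice. -/
lemma sum_ind_snoc {n : ℕ} (ω : Par n) {i s : ℕ} (h : i ≤ n) :
    (∑ p : Fin (n + 1), ind s i (snoc ω p)) / ((n : ℝ) + 1)
      = ind s i ω + (s : ℝ) / ((n : ℝ) + 1) * (ind (s - 1) i ω - ind s i ω) := by
  classical
  have hn : (0 : ℝ) < (n : ℝ) + 1 := by positivity
  rcases lt_trichotomy s (S ω i) with h1 | h1 | h1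
  · have h2 : ∀ p : Fin (n + 1), ind s i (snoc ω p) = 1 := by
      intro p
      unfold ind
      rw [S_snoc ω p h, if_pos (by omega)]
    have h3 : ind s i ω = 1 := by unfold ind; rw [if_pos h1]
    have h4 : ind (s - 1) i ω = 1 := by unfold ind; rw [if_pos (by omega)]
    rw [sum_congr rfl (fun p _ => h2 p), h3, h4]
    simp
    exact hn.ne'
  · have h2 : ∀ p : Fin (n + 1), ind s i (snoc ω p)
        = if (p : ℕ) ∈ D (ext ω) i n then 1 else 0 := by
      intro p
      unfold ind
      rw [S_snoc ω p h]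
      split_ifs <;> first | rfl | omega
    have h3 : ind s i ω = 0 := by unfold ind; rw [if_neg (by omega)]
    have h5 := S_pos ω h
    have h4 : ind (s - 1) i ω = 1 := by unfold ind; rw [if_pos (by omega)]
    rw [sum_congr rfl (fun p _ => h2 p), h3, h4, sum_boole, card_mem_D, ← h1]
    ring
  · have h2 : ∀ p : Fin (n + 1), ind s i (snoc ω p) = 0 := by
      intro p
      unfold ind
      rw [S_snoc ω p h, if_neg]
      split_ifs <;> omega
    have h3 : ind s i ω = 0 := by unfold ind; rw [if_neg (by omega)]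
    have h4 : ind (s - 1) i ω = 0 := by unfold ind; rw [if_neg (by omega)]
    rw [sum_congr rfl (fun p _ => h2 p), h3, h4]
    simp

/-- The recursion for the tail of a subtree size. -/
lemma En_ind_succ {n : ℕ} {i s : ℕ} (h : i ≤ n) :
    En (fun ω : Par (n + 1) => ind s i ω)
      = En (fun ω : Par n => ind s i ω) + (s : ℝ) / ((n : ℝ) + 1)
          * (En (fun ω : Par n => ind (s - 1) i ω) - En (fun ω : Par n => ind s i ω)) := by
  rw [En_succ, En_congr (fun ω => sum_ind_snoc ω h), En_add, En_mul_left, En_sub]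

lemma pn_rec {n i s : ℕ} (hi : i ≤ n) (h1 : 1 ≤ s) (h2 : s ≤ n) :
    pn (n + 1) s i = pn n s i + (s : ℝ) / ((n : ℝ) + 1) * (pn n (s - 1) i - pn n s i) := by
  obtain ⟨N, rfl⟩ := Nat.exists_eq_add_of_le h2
  unfold pn
  have e1 : s + N + 1 - s = N + 1 := by omega
  have e2 : s + N - s = N := by omega
  have e3 : s + N - (s - 1) = N + 1 := by omega
  rw [e1, e2, e3]
  have hc1 : (0 : ℝ) < ((s + N).choose i : ℝ) := by exact_mod_cast Nat.choose_pos hi
  have hc2 : (0 : ℝ) < ((s + N + 1).choose i : ℝ) := by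
    exact_mod_cast Nat.choose_pos (by omega : i ≤ s + N + 1)
  have k1 : ((s + N).choose i : ℝ) * ((s : ℝ) + N + 1)
      = ((s + N + 1).choose i : ℝ) * ((s : ℝ) + N + 1 - i) := by
    have := Nat.choose_mul_succ_eq (s + N) i
    have h3 : ((s + N + 1 - i : ℕ) : ℝ) = (s : ℝ) + N + 1 - i := by
      rw [Nat.cast_sub (by omega)]; push_cast; ring
    rw [← h3]
    exact_mod_cast this
  have k2 : (N.choose i : ℝ) * ((N : ℝ) + 1) = ((N + 1).choose i : ℝ) * ((N : ℝ) + 1 - i) := by
    rcases le_or_gt i (N + 1) with h4 | h4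
    · have := Nat.choose_mul_succ_eq N i
      have h3 : ((N + 1 - i : ℕ) : ℝ) = (N : ℝ) + 1 - i := by
        rw [Nat.cast_sub h4]; push_cast; ring
      rw [← h3]
      exact_mod_cast this
    · rw [Nat.choose_eq_zero_of_lt h4, Nat.choose_eq_zero_of_lt (by omega : N < i)]
      simp
  have hpos : (0 : ℝ) < (s : ℝ) + N + 1 := by positivity
  push_cast
  have k3 : ((s + N + 1).choose i : ℝ) * ((s : ℝ) + N + 1 - i)
      * (((N.choose i : ℝ) * ((N : ℝ) + 1) + s * ((N + 1).choose i : ℝ)))
      = ((N + 1).choose i : ℝ) * ((s : ℝ) + N + 1 - i) * (((s + N).choose i : ℝ)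
        * ((s : ℝ) + N + 1)) := by
    rw [k2, k1]; ring
  have hd : (0 : ℝ) < (s : ℝ) + N + 1 - i := by
    have : (i : ℝ) ≤ s + N := by exact_mod_cast hi
    linarith
  have k4 : ((s + N + 1).choose i : ℝ)
      * (((N.choose i : ℝ) * ((N : ℝ) + 1) + s * ((N + 1).choose i : ℝ)))
      = ((N + 1).choose i : ℝ) * (((s + N).choose i : ℝ) * ((s : ℝ) + N + 1)) := by
    have := mul_left_cancel₀ hd.ne' (a := (s : ℝ) + N + 1 - i)
      (b := ((s + N + 1).choose i : ℝ)
      * (((N.choose i : ℝ) * ((N : ℝ) + 1) + s * ((N + 1).choose i : ℝ))))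
      (c := ((N + 1).choose i : ℝ) * (((s + N).choose i : ℝ) * ((s : ℝ) + N + 1)))
      (by linarith)
    exact this
  rw [div_add' _ _ _ hc1.ne', div_eq_div_iff hc2.ne' hc1.ne']
  field_simp
  linarith

/-- U3: the law of the subtree sizes. -/
theorem tail : TailStmt := by
  intro n
  induction n with
  | zero =>
    intro s i hs hi
    have hs0 : s = 0 := by omega
    have hi0 : i = 0 := by omega
    subst hs0 hi0
    have h1 : ∀ ω : Par 0, ind 0 0 ω = 1 := by
      intro ω
      unfold ind
      rw [S_last, if_pos (by omega)]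
    rw [En_congr h1, En_const]
    simp [pn]
  | succ n ih =>
    intro s i hs hi
    rcases Nat.lt_or_ge n i with h | h
    · have hi0 : i = n + 1 := by omega
      subst hi0
      rcases Nat.eq_zero_or_pos s with h0 | h0
      · subst h0
        have h1 : ∀ ω : Par (n + 1), ind 0 (n + 1) ω = 1 := by
          intro ω
          unfold ind
          rw [S_last, if_pos (by omega)]
        rw [En_congr h1, En_const]
        simp [pn]
      · have h1 : ∀ ω : Par (n + 1), ind s (n + 1) ω = 0 := by
          intro ω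
          unfold ind
          rw [S_last, if_neg (by omega)]
        rw [En_congr h1, En_const]
        unfold pn
        rw [Nat.choose_eq_zero_of_lt (by omega : n + 1 - s < n + 1)]
        simp
    · rw [En_ind_succ h]
      rcases Nat.eq_zero_or_pos s with h0 | h0
      · subst h0
        rw [ih 0 i (by omega) h]
        have hc1 : (0 : ℝ) < (n.choose i : ℝ) := by exact_mod_cast Nat.choose_pos h
        have hc2 : (0 : ℝ) < ((n + 1).choose i : ℝ) := by
          exact_mod_cast Nat.choose_pos (by omega : i ≤ n + 1)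
        simp [pn, hc1.ne', hc2.ne']
      · rcases Nat.lt_or_ge n s with h3 | h3
        · have hs0 : s = n + 1 := by omega
          subst hs0
          have h4 : En (fun ω : Par n => ind (n + 1) i ω) = 0 := by
            have h1 : ∀ ω : Par n, ind (n + 1) i ω = 0 := by
              intro ω
              unfold ind
              have := S_le ω i
              rw [if_neg (by omega)]
            rw [En_congr h1, En_const]
          rw [h4, Nat.add_sub_cancel, ih n i le_rfl h]
          unfold pn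
          have hn : (0 : ℝ) < (n : ℝ) + 1 := by positivity
          rcases Nat.eq_zero_or_pos i with h5 | h5
          · subst h5
            push_cast
            simp
            exact hn.ne'
          · rw [Nat.sub_self, Nat.sub_self, Nat.choose_eq_zero_of_lt h5]
            simp
        · rw [ih s i h3 h, ih (s - 1) i (by omega) h, pn_rec h h0 h3]

end Pool.Agent.R254.UA
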