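import Pool.Agent.R254.UA.Stm

/-!
# UA-2: selection
-/

set_option autoImplicit false

open Finset Filter
open scoped Topology

namespace Pool.Agent.R254.UA

theorem sel_of_cen (hC : CenStmt) : SelStmt := by
  intro n ω m s A hA hs
  have hcard := hA.1
  have hmin := hA.2
  constructor
  · intro hm w hw
    rw [mem_filter]
    refine ⟨mem_univ _, ?_⟩
    by_contra hws
    push Not at hws
    have hcw : cen ω w = n + 1 - S ω w := hC n ω w (by omega)
    have hsub : univ.filter (fun v : Fin (n + 1) => s < S ω v ∧ 2 * S ω v ≤ n + 1) ⊆
        A.erase w := by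
      intro v hv
      rw [mem_filter] at hv
      have hcv : cen ω v = n + 1 - S ω v := hC n ω v hv.2.2
      rw [mem_erase]
      constructor
      · rintro rfl
        omega
      · by_contra hvA
        have h1 := hmin w hw v hvA
        omega
    have h2 := card_le_card hsub
    rw [card_erase_of_mem hw] at h2
    have h3 : 0 < A.card := card_pos.2 ⟨w, hw⟩
    omega
  · intro hm v hv
    by_contra hvA
    have hv' := hv
    rw [mem_filter] at hv
    have hcv : cen ω v = n + 1 - S ω v := hC n ω v hv.2.2
    have hsub : A ⊆ (univ.filter (fun v : Fin (n + 1) => s < S ω v)).erase v := by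
      intro w hw
      rw [mem_erase, mem_filter]
      refine ⟨fun h => hvA (h ▸ hw), mem_univ _, ?_⟩
      by_contra hws
      push Not at hws
      have hcw : cen ω w = n + 1 - S ω w := hC n ω w (by omega)
      have h1 := hmin w hw v hvA
      omega
    have h2 := card_le_card hsub
    have hvb : v ∈ univ.filter (fun v : Fin (n + 1) => s < S ω v) := by
      rw [mem_filter]; exact ⟨mem_univ _, hv.2.1⟩
    rw [card_erase_of_mem hvb] at h2
    have h3 : 0 < (univ.filter (fun v : Fin (n + 1) => s < S ω v)).card := card_pos.2 ⟨v, hvb⟩
    omega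

end Pool.Agent.R254.UA
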