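import Pool.Agent.R254.UA.Stm

/-!
# UA-8: tail of the count
-/

set_option autoImplicit false

open Finset Filter
open scoped Topology

namespace Pool.Agent.R254.UA

namespace TC

theorem En_mono {n : ℕ} {F G : Par n → ℝ} (h : ∀ ω, F ω ≤ G ω) : En F ≤ En G := by
  unfold En
  exact div_le_div_of_nonneg_right (Finset.sum_le_sum fun ω _ => h ω) (Nat.cast_nonneg _)

theorem En_smul {n : ℕ} (c : ℝ) (F : Par n → ℝ) : En (fun ω => c * F ω) = c * En F := by
  unfold En
  rw [← Finset.mul_sum, mul_div_assoc]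

theorem En_sum {n : ℕ} (I : Finset ℕ) (F : ℕ → Par n → ℝ) :
    En (fun ω => ∑ i ∈ I, F i ω) = ∑ i ∈ I, En (F i) := by
  unfold En
  rw [Finset.sum_comm, Finset.sum_div]

theorem markov {n : ℕ} (Y : Par n → ℝ) (hY : ∀ ω, 0 ≤ Y ω) (r : ℝ) (hr : 0 < r) :
    En (fun ω : Par n => if r < Y ω then (1 : ℝ) else 0) ≤ En Y / r := by
  have h1 : En (fun ω : Par n => if r < Y ω then (1 : ℝ) else 0) ≤
      En (fun ω => (1 / r) * Y ω) := by
    refine En_mono fun ω => ?_
    split_ifs with h
    · rw [one_div, inv_mul_eq_div, le_div_iff₀ hr]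
      linarith
    · exact mul_nonneg (by positivity) (hY ω)
  rw [En_smul] at h1
  calc _ ≤ _ := h1
    _ = En Y / r := by ring

theorem ind_nonneg {n : ℕ} (s i : ℕ) (ω : Par n) : 0 ≤ ind s i ω := by
  unfold ind
  split_ifs <;> norm_num

end TC

open TC in
theorem tailCount_of (hT : TailStmt) (hM : MeanStmt) : TailCountStmt := by
  obtain ⟨-, hM2, hM3⟩ := hM
  constructor
  · intro a η ε ha hη hε
    have hlim : Tendsto (fun L : ℕ => a / η * Real.exp (-((L : ℝ) / a))) atTop (𝓝 (a / η * 0)) := by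
      refine Tendsto.const_mul _ ?_
      refine Real.tendsto_exp_neg_atTop_nhds_zero.comp ?_
      exact tendsto_natCast_atTop_atTop.atTop_div_const ha
    rw [mul_zero] at hlim
    have hev := hlim.eventually (gt_mem_nhds (half_pos hε))
    obtain ⟨L₀, hL₀⟩ := eventually_atTop.1 hev
    refine ⟨L₀, fun L hL => ?_⟩
    have hLa := hL₀ L hL
    obtain ⟨K₁, hK₁⟩ := exists_nat_gt (1 / a)
    obtain ⟨K₂, hK₂⟩ := exists_nat_gt (2 / (η * ε))
    refine ⟨max 1 (max K₁ K₂), fun K hK => ?_⟩
    have hK1 : 1 ≤ K := (le_max_left _ _).trans hK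
    have hKK1 : K₁ ≤ K := ((le_max_left _ _).trans (le_max_right _ _)).trans hK
    have hKK2 : K₂ ≤ K := ((le_max_right _ _).trans (le_max_right _ _)).trans hK
    have hKpos : (0 : ℝ) < K := by exact_mod_cast hK1
    have hK1' : 1 / a < K := hK₁.trans_le (by exact_mod_cast hKK1)
    have hK2' : 2 / (η * ε) < K := hK₂.trans_le (by exact_mod_cast hKK2)
    have haK : 1 < a * K := by
      rw [div_lt_iff₀ ha] at hK1'
      linarith
    have hx0 : 0 < 1 / (a * K) := by positivity
    have hx1 : 1 / (a * K) < 1 := by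
      rw [div_lt_one (by positivity)]
      exact haK
    have hev2 := hM2 (1 / (a * K)) hx0 hx1 (L * K)
    filter_upwards [hev2] with n hn
    have hsn : ⌊(1 / (a * K)) * n⌋₊ ≤ n := by
      refine Nat.floor_le_of_le ?_
      have : (0 : ℝ) ≤ n := Nat.cast_nonneg _
      nlinarith
    have hEY : En (fun ω : Par n => ∑ i ∈ Ico (L * K) (n + 1), ind ⌊(1 / (a * K)) * n⌋₊ i ω) =
        ∑ i ∈ Ico (L * K) (n + 1), pn n ⌊(1 / (a * K)) * n⌋₊ i := by
      rw [En_sum]
      refine Finset.sum_congr rfl fun i hi => ?_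
      rw [mem_Ico] at hi
      exact hT n _ i hsn (by omega)
    have hmk := markov (fun ω : Par n => ∑ i ∈ Ico (L * K) (n + 1),
      ind ⌊(1 / (a * K)) * n⌋₊ i ω) (fun ω => Finset.sum_nonneg fun i _ => ind_nonneg _ _ _)
      (η * K) (by positivity)
    refine hmk.trans ?_
    rw [hEY]
    have hpow : (1 - 1 / (a * K)) ^ (L * K) ≤ Real.exp (-((L : ℝ) / a)) := by
      have h1 : 1 - 1 / (a * K) ≤ Real.exp (-(1 / (a * K))) := by
        have := Real.add_one_le_exp (-(1 / (a * K)))
        linarith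
      have h2 : (1 - 1 / (a * K)) ^ (L * K) ≤ Real.exp (-(1 / (a * K))) ^ (L * K) :=
        pow_le_pow_left₀ (by linarith) h1 _
      refine h2.trans (le_of_eq ?_)
      rw [← Real.exp_nat_mul]
      congr 1
      push_cast
      field_simp
    rw [div_le_iff₀ (by positivity)]
    have h3 : (1 - 1 / (a * K)) ^ (L * K) / (1 / (a * K)) ≤
        a * K * Real.exp (-((L : ℝ) / a)) := by
      rw [div_div_eq_mul_div, div_one]
      calc (1 - 1 / (a * K)) ^ (L * K) * (a * K) ≤ Real.exp (-((L : ℝ) / a)) * (a * K) :=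
            mul_le_mul_of_nonneg_right hpow (by positivity)
        _ = _ := by ring
    have h4 : a * Real.exp (-((L : ℝ) / a)) ≤ ε / 2 * η := by
      have h5 : a / η * Real.exp (-((L : ℝ) / a)) * η ≤ ε / 2 * η :=
        mul_le_mul_of_nonneg_right hLa.le hη.le
      have h6 : a / η * Real.exp (-((L : ℝ) / a)) * η = a * Real.exp (-((L : ℝ) / a)) := by
        field_simp
      linarith
    have h7 : 1 ≤ ε / 2 * η * K := by
      rw [div_lt_iff₀ (by positivity)] at hK2'
      nlinarith
    have h8 : a * K * Real.exp (-((L : ℝ) / a)) ≤ ε / 2 * η * K := by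
      calc a * K * Real.exp (-((L : ℝ) / a)) = a * Real.exp (-((L : ℝ) / a)) * K := by ring
        _ ≤ _ := mul_le_mul_of_nonneg_right h4 hKpos.le
    linarith
  · intro η ε hη hε
    obtain ⟨K₂, hK₂⟩ := exists_nat_gt (3 / (η * ε))
    refine ⟨max 1 K₂, fun K hK n => ?_⟩
    have hK1 : 1 ≤ K := (le_max_left _ _).trans hK
    have hKK2 : K₂ ≤ K := (le_max_right _ _).trans hK
    have hKpos : (0 : ℝ) < K := by exact_mod_cast hK1
    have hK2' : 3 / (η * ε) < K := hK₂.trans_le (by exact_mod_cast hKK2)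
    have hEY : En (fun ω : Par n => ∑ i ∈ range (n + 1), ind ((n + 1) / 2) i ω) =
        ∑ i ∈ range (n + 1), pn n ((n + 1) / 2) i := by
      rw [En_sum]
      refine Finset.sum_congr rfl fun i hi => ?_
      rw [mem_range] at hi
      exact hT n _ i (by omega) (by omega)
    have hmk := markov (fun ω : Par n => ∑ i ∈ range (n + 1), ind ((n + 1) / 2) i ω)
      (fun ω => Finset.sum_nonneg fun i _ => ind_nonneg _ _ _) (η * K) (by positivity)
    refine hmk.trans ?_
    rw [hEY, div_le_iff₀ (by positivity)]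
    rw [div_lt_iff₀ (by positivity)] at hK2'
    have := hM3 n
    nlinarith

end Pool.Agent.R254.UA
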