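import Pool.Agent.R254.UA.Stm

/-!
# UA-5: variance bound
-/

set_option autoImplicit false

open Finset Filter
open scoped Topology

namespace Pool.Agent.R254.UA

namespace VarAux

variable {n : ℕ}

theorem card_pos' : (0 : ℝ) < Fintype.card (Par n) := by
  have : 0 < Fintype.card (Par n) := Fintype.card_pos
  exact_mod_cast this

theorem En_sum {ι : Type*} (t : Finset ι) (F : ι → Par n → ℝ) :
    En (fun ω => ∑ i ∈ t, F i ω) = ∑ i ∈ t, En (F i) := by
  unfold En
  rw [sum_comm, sum_div]

theorem En_sub (F G : Par n → ℝ) : En (fun ω => F ω - G ω) = En F - En G := by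
  unfold En
  rw [sum_sub_distrib, sub_div]

theorem En_add (F G : Par n → ℝ) : En (fun ω => F ω + G ω) = En F + En G := by
  unfold En
  rw [sum_add_distrib, add_div]

theorem En_mul_const (F : Par n → ℝ) (c : ℝ) : En (fun ω => F ω * c) = En F * c := by
  unfold En
  rw [← sum_mul]
  ring

theorem En_const (c : ℝ) : En (fun _ : Par n => c) = c := by
  unfold En
  rw [sum_const, card_univ, nsmul_eq_mul]
  have := (card_pos' (n := n)).ne'
  field_simp

theorem ind_sq (s i : ℕ) (ω : Par n) : ind s i ω * ind s i ω = ind s i ω := by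
  unfold ind
  split_ifs <;> simp

theorem cov_eq (s i j : ℕ) : En (fun ω : Par n => (ind s i ω - En (fun ω : Par n => ind s i ω)) *
    (ind s j ω - En (fun ω : Par n => ind s j ω))) =
    En (fun ω : Par n => ind s i ω * ind s j ω) -
      En (fun ω : Par n => ind s i ω) * En (fun ω : Par n => ind s j ω) := by
  set a := En (fun ω : Par n => ind s i ω) with ha
  set b := En (fun ω : Par n => ind s j ω) with hb
  have e : ∀ ω : Par n, (ind s i ω - a) * (ind s j ω - b) =
      (ind s i ω * ind s j ω + a * b) - (ind s j ω * a + ind s i ω * b) := fun ω => by ring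
  simp only [e]
  rw [En_sub, En_add, En_add, En_const, En_mul_const, En_mul_const, ← ha, ← hb]
  ring

end VarAux

open VarAux in
theorem var_stmt (hC : CovStmt) : VarStmt := by
  intro n s m hs hm hmn
  set a : ℕ → ℝ := fun i => En (fun ω : Par n => ind s i ω) with ha
  have e1 : En (fun ω' : Par n => cnt s m ω') = ∑ i ∈ range m, a i := by
    unfold cnt
    rw [En_sum]
  have e2 : ∀ ω : Par n, (cnt s m ω - ∑ i ∈ range m, a i) ^ 2 =
      ∑ i ∈ range m, ∑ j ∈ range m, (ind s i ω - a i) * (ind s j ω - a j) := by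
    intro ω
    rw [cnt, ← sum_sub_distrib, sq, sum_mul_sum]
  rw [e1]
  simp only [e2]
  rw [En_sum]
  simp only [En_sum]
  have e3 : ∀ i ∈ range m, ∀ j ∈ range m,
      En (fun ω : Par n => (ind s i ω - a i) * (ind s j ω - a j)) ≤
        (if i = j then 1 / 4 else 0) + (1 / ((i : ℝ) + 1) + 1 / ((j : ℝ) + 1)) := by
    intro i hi j hj
    rw [mem_range] at hi hj
    rw [ha, cov_eq]
    have p1 : (0 : ℝ) < 1 / ((i : ℝ) + 1) := by positivity
    have p2 : (0 : ℝ) < 1 / ((j : ℝ) + 1) := by positivity
    rcases lt_trichotomy i j with h | h | h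
    · have := hC n s i j hs h (by omega)
      rw [if_neg h.ne]
      linarith
    · subst h
      rw [if_pos rfl]
      simp only [ind_sq]
      have := sq_nonneg (En (fun ω : Par n => ind s i ω) - 1 / 2)
      nlinarith
    · have := hC n s j i hs h (by omega)
      rw [if_neg h.ne']
      have e4 : En (fun ω : Par n => ind s i ω * ind s j ω) =
          En (fun ω : Par n => ind s j ω * ind s i ω) := by
        simp only [mul_comm]
      rw [e4]
      linarith
  refine (sum_le_sum fun i hi => sum_le_sum fun j hj => e3 i hi j hj).trans ?_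
  have hH : ∑ i ∈ range m, 1 / ((i : ℝ) + 1) ≤ 1 + Real.log m := by
    have := harmonic_le_one_add_log m
    rw [harmonic] at this
    push_cast at this
    simpa [one_div] using this
  have e5 : ∑ i ∈ range m, ∑ j ∈ range m, ((if i = j then (1 : ℝ) / 4 else 0) +
      (1 / ((i : ℝ) + 1) + 1 / ((j : ℝ) + 1))) =
      m / 4 + 2 * m * ∑ i ∈ range m, 1 / ((i : ℝ) + 1) := by
    have e6 : ∀ i ∈ range m, ∑ j ∈ range m, ((if i = j then (1 : ℝ) / 4 else 0) +
        (1 / ((i : ℝ) + 1) + 1 / ((j : ℝ) + 1))) =
        1 / 4 + m * (1 / ((i : ℝ) + 1)) + ∑ j ∈ range m, 1 / ((j : ℝ) + 1) := by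
      intro i hi
      rw [sum_add_distrib, sum_add_distrib, sum_ite_eq (range m) i, if_pos hi, sum_const,
        card_range, nsmul_eq_mul, add_assoc]
    rw [sum_congr rfl e6, sum_add_distrib, sum_add_distrib, sum_const, sum_const, card_range,
      nsmul_eq_mul, nsmul_eq_mul, ← mul_sum]
    ring
  rw [e5]
  have hm1 : (1 : ℝ) ≤ m := by exact_mod_cast hm
  have hlog : 0 ≤ Real.log m := Real.log_nonneg hm1
  have h7 := mul_le_mul_of_nonneg_left hH (by positivity : (0 : ℝ) ≤ 2 * m)
  nlinarith [mul_nonneg (by linarith : (0 : ℝ) ≤ m) hlog]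

end Pool.Agent.R254.UA
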